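import Mathlib

set_option autoImplicit false

/-!
# Arms: greedy pebbling on a path

`arm f m` is the net number of pebbles which a path with `m` vertices, carrying `f 0, f 1, …`
pebbles (the last vertex need not be covered), can send to the vertex before the first one.
-/

namespace Q122.Hub

open Finset

/-- the value passed on by a vertex with surplus `s` -/
def h (s : ℤ) : ℤ := if 0 ≤ s then s / 2 else 2 * s

/-- the value of an arm -/
def arm : (ℕ → ℕ) → ℕ → ℤ
  | _, 0 => 1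
  | f, m + 1 => h ((f 0 : ℤ) - 1 + arm (fun i => f (i + 1)) m)

/-- number of pebbles of an arm -/
def mass (f : ℕ → ℕ) (m : ℕ) : ℤ := ∑ i ∈ range m, (f i : ℤ)

lemma mass_zero (f : ℕ → ℕ) : mass f 0 = 0 := by simp [mass]

lemma mass_succ (f : ℕ → ℕ) (m : ℕ) : mass f (m + 1) = f 0 + mass (fun i => f (i + 1)) m := by
  unfold mass
  rw [sum_range_succ']
  ring

lemma mass_succ' (f : ℕ → ℕ) (m : ℕ) : mass f (m + 1) = mass f m + f m := by
  unfold mass
  rw [sum_range_succ]

lemma mass_nonneg (f : ℕ → ℕ) (m : ℕ) : 0 ≤ mass f m :=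
  sum_nonneg fun _ _ => Int.natCast_nonneg _

lemma h_mono {s t : ℤ} (hst : s ≤ t) : h s ≤ h t := by
  unfold h
  split_ifs <;> omega

lemma h_nonneg {s : ℤ} : 0 ≤ h s ↔ 0 ≤ s := by
  unfold h
  split_ifs <;> omega

lemma h_of_neg {s : ℤ} (hs : s < 0) : h s = 2 * s := by
  unfold h
  rw [if_neg (by omega)]

lemma h_of_nonneg {s : ℤ} (hs : 0 ≤ s) : h s = s / 2 := by
  unfold h
  rw [if_pos hs]

lemma arm_zero (f : ℕ → ℕ) : arm f 0 = 1 := rfl

lemma arm_succ (f : ℕ → ℕ) (m : ℕ) :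
    arm f (m + 1) = h ((f 0 : ℤ) - 1 + arm (fun i => f (i + 1)) m) := rfl

lemma arm_one (f : ℕ → ℕ) : arm f 1 = (f 0 : ℤ) / 2 := by
  rw [arm_succ, arm_zero, h_of_nonneg (by omega)]
  congr 1
  ring

lemma two_pow_pos (m : ℕ) : (1 : ℤ) ≤ 2 ^ m := by
  have : (0 : ℤ) < 2 ^ m := by positivity
  omega

lemma arm_mono (m : ℕ) : ∀ f g : ℕ → ℕ, (∀ i < m, f i ≤ g i) → arm f m ≤ arm g m := by
  induction m with
  | zero => intro f g _; exact le_refl _
  | succ m ih =>
    intro f g hfg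
    rw [arm_succ, arm_succ]
    apply h_mono
    have h1 := ih (fun i => f (i + 1)) (fun i => g (i + 1)) fun i hi => hfg (i + 1) (by omega)
    have h2 := hfg 0 (by omega)
    have h3 : (f 0 : ℤ) ≤ g 0 := by exact_mod_cast h2
    linarith

lemma arm_neg_le {f : ℕ → ℕ} {m : ℕ} (hx : arm f m < 0) : arm f m ≤ -2 := by
  cases m with
  | zero => rw [arm_zero] at hx; omega
  | succ m =>
    rw [arm_succ] at hx ⊢
    unfold h at hx ⊢
    split_ifs at hx ⊢ <;> omega

lemma arm_ge (m : ℕ) : ∀ f : ℕ → ℕ, -(2 ^ (m + 1) - 2 : ℤ) ≤ arm f (m + 1) := by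
  induction m with
  | zero =>
    intro f
    rw [arm_one]
    omega
  | succ m ih =>
    intro f
    have h1 := ih fun i => f (i + 1)
    rw [arm_succ]
    have h2 : (0 : ℤ) ≤ f 0 := Int.natCast_nonneg _
    have h3 : (2 : ℤ) ^ (m + 1 + 1) = 2 * 2 ^ (m + 1) := by ring
    rw [h3]
    generalize (2 : ℤ) ^ (m + 1) = K at *
    unfold h
    split_ifs with h4
    · have h5 := two_pow_pos (m + 1)
      have : K ≥ 1 := by
        by_contra hcon
        omega
      omega
    · omega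

end Q122.Hub
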