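import Pool.Agent.Q122.Hub.Arm

set_option autoImplicit false

/-!
# Bounds for arms
-/

namespace Q122.Hub

open Finset

lemma arm_cm (m : ℕ) : ∀ f : ℕ → ℕ,
    (0 ≤ arm f (m + 1) → mass f (m + 1) ≤ 2 ^ (m + 1) * (arm f (m + 1) + 2) - 3) ∧
    (arm f (m + 1) < 0 → mass f (m + 1) - arm f (m + 1) ≤ 2 ^ (m + 1) - 1) := by
  induction m with
  | zero =>
    intro f
    rw [arm_one, mass_succ', mass_zero]
    constructor
    · intro _
      norm_num
      omega
    · intro hx
      omega
  | succ m ih =>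
    intro f
    obtain ⟨h1, h2⟩ := ih fun i => f (i + 1)
    have h3 := arm_ge m fun i => f (i + 1)
    have h4 := mass_nonneg (fun i => f (i + 1)) (m + 1)
    rw [mass_succ f, arm_succ f]
    have h5 : (2 : ℤ) ^ (m + 1 + 1) = 2 * 2 ^ (m + 1) := by ring
    rw [h5]
    have h6 : (2 : ℤ) ≤ 2 ^ (m + 1) := by
      have := two_pow_pos m
      rw [pow_succ]
      omega
    have h7 : (0 : ℤ) ≤ f 0 := Int.natCast_nonneg _
    generalize (2 : ℤ) ^ (m + 1) = K at *
    generalize arm (fun i => f (i + 1)) (m + 1) = x₂ at *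
    generalize mass (fun i => f (i + 1)) (m + 1) = P at *
    generalize (f 0 : ℤ) = a at *
    constructor
    · intro hx
      rw [h_nonneg] at hx
      rw [h_of_nonneg hx]
      have h8 : a - 1 + x₂ ≤ 2 * ((a - 1 + x₂) / 2) + 1 := by omega
      have h9 : 0 ≤ (a - 1 + x₂) / 2 := by omega
      generalize (a - 1 + x₂) / 2 = x at *
      rcases le_or_gt 0 x₂ with h | h
      · have := h1 h
        nlinarith [mul_nonneg (by omega : 0 ≤ K - 1) (by omega : 0 ≤ a),
          mul_nonneg (by omega : 0 ≤ K) (by omega : 0 ≤ 2 * x + 1 - (a - 1 + x₂))]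
      · have := h2 h
        nlinarith [mul_nonneg (by omega : 0 ≤ K - 1) h9]
    · intro hx
      have hs : a - 1 + x₂ < 0 := by
        by_contra hcon
        rw [← not_le, h_nonneg] at hx
        omega
      rw [h_of_neg hs]
      rcases le_or_gt 0 x₂ with h | h
      · have := h1 h
        have h0 : x₂ = 0 := by omega
        rw [h0] at this ⊢
        omega
      · have := h2 h
        by_cases h10 : P + a = 0
        · omega
        · omega

lemma arm_cm' (m : ℕ) : ∀ f : ℕ → ℕ, f m = 0 →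
    (0 ≤ arm f (m + 1) → mass f (m + 1) ≤ 2 ^ (m + 1) * (arm f (m + 1) + 2) - 4) ∧
    (arm f (m + 1) < 0 → mass f (m + 1) - arm f (m + 1) ≤ 2 ^ (m + 1) - 2) := by
  induction m with
  | zero =>
    intro f hf
    rw [arm_one, mass_succ', mass_zero, hf]
    norm_num
  | succ m ih =>
    intro f hf
    obtain ⟨h1, h2⟩ := ih (fun i => f (i + 1)) hf
    have h4 := mass_nonneg (fun i => f (i + 1)) (m + 1)
    rw [mass_succ f, arm_succ f]
    have h5 : (2 : ℤ) ^ (m + 1 + 1) = 2 * 2 ^ (m + 1) := by ring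
    rw [h5]
    have h6 : (2 : ℤ) ≤ 2 ^ (m + 1) := by
      have := two_pow_pos m
      rw [pow_succ]
      omega
    have h7 : (0 : ℤ) ≤ f 0 := Int.natCast_nonneg _
    generalize (2 : ℤ) ^ (m + 1) = K at *
    generalize arm (fun i => f (i + 1)) (m + 1) = x₂ at *
    generalize mass (fun i => f (i + 1)) (m + 1) = P at *
    generalize (f 0 : ℤ) = a at *
    constructor
    · intro hx
      rw [h_nonneg] at hx
      rw [h_of_nonneg hx]
      have h8 : a - 1 + x₂ ≤ 2 * ((a - 1 + x₂) / 2) + 1 := by omega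
      have h9 : 0 ≤ (a - 1 + x₂) / 2 := by omega
      generalize (a - 1 + x₂) / 2 = x at *
      rcases le_or_gt 0 x₂ with h | h
      · have := h1 h
        nlinarith [mul_nonneg (by omega : 0 ≤ K - 1) (by omega : 0 ≤ a),
          mul_nonneg (by omega : 0 ≤ K) (by omega : 0 ≤ 2 * x + 1 - (a - 1 + x₂))]
      · have := h2 h
        nlinarith [mul_nonneg (by omega : 0 ≤ K - 1) h9]
    · intro hx
      have hs : a - 1 + x₂ < 0 := by
        by_contra hcon
        rw [← not_le, h_nonneg] at hx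
        omega
      rw [h_of_neg hs]
      rcases le_or_gt 0 x₂ with h | h
      · have := h1 h
        have h0 : x₂ = 0 := by omega
        rw [h0] at this ⊢
        omega
      · have := h2 h
        omega

/-- the last two vertices carry `0` and at most `1` pebbles -/
lemma arm_two (m : ℕ) : ∀ f : ℕ → ℕ, f m = 0 → f (m + 1) ≤ 1 →
    (0 ≤ arm f (m + 2) → mass f m ≤ 2 ^ m * (arm f (m + 2) + 2)) ∧
    (arm f (m + 2) < 0 → 2 * mass f m - arm f (m + 2) ≤ 4 * 2 ^ m - 2) := by
  induction m with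
  | zero =>
    intro f hf hf'
    have h1 : arm f 2 = -2 := by
      rw [zero_add] at hf'
      rw [arm_succ, arm_one, hf, zero_add, h_of_neg]
      · omega
      · omega
    rw [zero_add, h1, mass_zero]
    norm_num
  | succ m ih =>
    intro f hf hf'
    obtain ⟨h1, h2⟩ := ih (fun i => f (i + 1)) hf hf'
    have h4 := mass_nonneg (fun i => f (i + 1)) m
    rw [mass_succ f, arm_succ f]
    have h5 : (2 : ℤ) ^ (m + 1) = 2 * 2 ^ m := by ring
    rw [h5]
    have h6 := two_pow_pos m
    have h7 : (0 : ℤ) ≤ f 0 := Int.natCast_nonneg _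
    generalize (2 : ℤ) ^ m = K at *
    change (0 ≤ arm (fun i => f (i + 1)) (m + 2) → _) at h1
    change (arm (fun i => f (i + 1)) (m + 2) < 0 → _) at h2
    change (0 ≤ h ((f 0 : ℤ) - 1 + arm (fun i => f (i + 1)) (m + 2)) →
      _ ≤ 2 * K * (h ((f 0 : ℤ) - 1 + arm (fun i => f (i + 1)) (m + 2)) + 2)) ∧
      (h ((f 0 : ℤ) - 1 + arm (fun i => f (i + 1)) (m + 2)) < 0 →
      _ - h ((f 0 : ℤ) - 1 + arm (fun i => f (i + 1)) (m + 2)) ≤ _)
    generalize arm (fun i => f (i + 1)) (m + 2) = x₂ at *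
    generalize mass (fun i => f (i + 1)) m = P at *
    generalize (f 0 : ℤ) = a at *
    constructor
    · intro hx
      rw [h_nonneg] at hx
      rw [h_of_nonneg hx]
      have h8 : a - 1 + x₂ ≤ 2 * ((a - 1 + x₂) / 2) + 1 := by omega
      have h9 : 0 ≤ (a - 1 + x₂) / 2 := by omega
      generalize (a - 1 + x₂) / 2 = x at *
      rcases le_or_gt 0 x₂ with h | h
      · have := h1 h
        nlinarith [mul_nonneg (by omega : 0 ≤ K - 1) (by omega : 0 ≤ a),
          mul_nonneg (by omega : 0 ≤ K) (by omega : 0 ≤ 2 * x + 1 - (a - 1 + x₂))]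
      · have := h2 h
        nlinarith [mul_nonneg (by omega : 0 ≤ K - 1) h9]
    · intro hx
      have hs : a - 1 + x₂ < 0 := by
        by_contra hcon
        rw [← not_le, h_nonneg] at hx
        omega
      rw [h_of_neg hs]
      rcases le_or_gt 0 x₂ with h | h
      · have := h1 h
        have h0 : x₂ = 0 := by omega
        rw [h0] at this ⊢
        omega
      · have := h2 h
        omega

/-- the last vertex carries at least two pebbles -/
lemma arm_ge' (m : ℕ) : ∀ f : ℕ → ℕ, 2 ≤ f (m + 1) →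
    -(2 ^ (m + 1) - 2 : ℤ) ≤ arm f (m + 2) := by
  induction m with
  | zero =>
    intro f hf
    rw [arm_succ, arm_one]
    have h1 : (2 : ℤ) ≤ f (0 + 1) := by exact_mod_cast hf
    have h2 : 0 ≤ h ((f 0 : ℤ) - 1 + ((f (0 + 1) : ℕ) : ℤ) / 2) := by
      rw [h_nonneg]
      omega
    norm_num
    norm_num at h2
    exact h2
  | succ m ih =>
    intro f hf
    have h1 := ih (fun i => f (i + 1)) hf
    have h2 : (0 : ℤ) ≤ f 0 := Int.natCast_nonneg _
    have h3 : (2 : ℤ) ^ (m + 1 + 1) = 2 * 2 ^ (m + 1) := by ring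
    have h5 := two_pow_pos (m + 1)
    rw [h3]
    generalize (2 : ℤ) ^ (m + 1) = K at *
    change _ ≤ h ((f 0 : ℤ) - 1 + arm (fun i => f (i + 1)) (m + 2))
    generalize arm (fun i => f (i + 1)) (m + 2) = x₂ at *
    have h6 : 2 * (-K + 1) ≤ h ((f 0 : ℤ) - 1 + x₂) := by
      rcases lt_or_ge (f 0 - 1 + x₂) 0 with h7 | h7
      · rw [h_of_neg h7]
        omega
      · have := h_nonneg.2 h7
        omega
    omega

/-- extending an arm -/
lemma arm_ext (m : ℕ) : ∀ f : ℕ → ℕ, (f m % 2 = 1 ∨ 2 ≤ f (m + 1)) →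
    arm f (m + 1) ≤ arm f (m + 2) := by
  induction m with
  | zero =>
    intro f hf
    rw [arm_one, arm_succ, arm_one]
    rcases hf with hf | hf
    · have h1 : (f 0 : ℤ) % 2 = 1 := by omega
      have h2 : 0 ≤ ((f (0 + 1) : ℕ) : ℤ) / 2 := by omega
      rw [h_of_nonneg (by omega)]
      omega
    · have h1 : (2 : ℤ) ≤ f (0 + 1) := by exact_mod_cast hf
      rw [h_of_nonneg (by omega)]
      omega
  | succ m ih =>
    intro f hf
    have h1 := ih (fun i => f (i + 1)) hf
    rw [arm_succ f (m + 1), arm_succ f (m + 2)]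
    apply h_mono
    change arm (fun i => f (i + 1)) (m + 1) ≤ arm (fun i => f (i + 1)) (m + 2) at h1
    linarith

/-- the first vertex has many pebbles -/
lemma arm_first (m : ℕ) (f : ℕ → ℕ) (hf : (2 : ℤ) ^ m - 1 ≤ f 0) : 0 ≤ arm f (m + 1) := by
  rw [arm_succ, h_nonneg]
  cases m with
  | zero =>
    rw [arm_zero]
    omega
  | succ m =>
    have := arm_ge m fun i => f (i + 1)
    omega

/-- arms with nonnegative value and nearly maximal mass -/
lemma arm_far (m : ℕ) : ∀ f : ℕ → ℕ, 0 ≤ arm f (m + 1) →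
    2 ^ (m + 1) * (arm f (m + 1) + 2) - 4 ≤ mass f (m + 1) →
    mass f (m + 1) - 1 ≤ f m ∧ (1 ≤ m → arm f (m + 1) ≤ arm f (m + 2)) := by
  induction m with
  | zero =>
    intro f hx hP
    rw [mass_succ', mass_zero]
    refine ⟨by omega, by omega⟩
  | succ m ih =>
    intro f hx hP
    obtain ⟨h1, h2⟩ := arm_cm m fun i => f (i + 1)
    have ih' := ih fun i => f (i + 1)
    have h4 := mass_nonneg (fun i => f (i + 1)) (m + 1)
    have h5 : (2 : ℤ) ^ (m + 1 + 1) = 2 * 2 ^ (m + 1) := by ring
    have h6 : (2 : ℤ) ≤ 2 ^ (m + 1) := by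
      have := two_pow_pos m
      rw [pow_succ]
      omega
    have h7 : (0 : ℤ) ≤ f 0 := Int.natCast_nonneg _
    rw [mass_succ f] at hP ⊢
    rw [h5] at hP
    have hx' := hx
    rw [arm_succ f, h_nonneg] at hx
    have hval := arm_succ f (m + 1)
    rw [h_of_nonneg hx] at hval
    have h8 : f 0 - 1 + arm (fun i => f (i + 1)) (m + 1) ≤ 2 * arm f (m + 1 + 1) + 1 := by
      rw [hval]
      omega
    -- the tail is nonnegative
    rcases lt_or_ge (arm (fun i => f (i + 1)) (m + 1)) 0 with hh | hh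
    · exfalso
      have := h2 hh
      generalize arm (fun i => f (i + 1)) (m + 1) = x₂ at *
      generalize mass (fun i => f (i + 1)) (m + 1) = P at *
      generalize (2 : ℤ) ^ (m + 1) = K at *
      generalize arm f (m + 1 + 1) = x at *
      nlinarith
    · have h9 := h1 hh
      -- m = 0 or m ≥ 1
      rcases Nat.eq_zero_or_pos m with hm | hm
      · subst hm
        rw [zero_add, arm_one] at *
        rw [mass_succ', mass_zero] at *
        simp only [zero_add] at *
        norm_num at *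
        have h10 : (f 1 : ℤ) ≤ 2 * ((f 1 : ℤ) / 2) + 1 := by omega
        have h11 : arm f 2 = (f 0 - 1 + (f 1 : ℤ) / 2) / 2 := hval
        have h12 : (f 0 : ℤ) ≤ 1 ∧ f 0 - 1 + (f 1 : ℤ) / 2 = 2 * arm f 2 + 1 ∧
            2 * arm f 2 + 1 ≤ (f 1 : ℤ) / 2 := by omega
        refine ⟨by omega, ?_⟩
        change _ ≤ h ((f 0 : ℤ) - 1 + h ((f 1 : ℤ) - 1 + arm (fun i => f (i + 1 + 1)) 1))
        rw [arm_one]
        have h13 : 0 ≤ ((f (0 + 1 + 1) : ℕ) : ℤ) / 2 := by omega
        generalize ((f (0 + 1 + 1) : ℕ) : ℤ) / 2 = c at *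
        rw [h_of_nonneg (by omega : 0 ≤ (f 1 : ℤ) - 1 + c), h_of_nonneg (by omega)]
        omega
      · have h10 : (4 : ℤ) ≤ 2 ^ (m + 1) := by
          obtain ⟨m, rfl⟩ : ∃ j, m = j + 1 := ⟨m - 1, by omega⟩
          have := two_pow_pos m
          rw [pow_succ, pow_succ]
          omega
        have h11 : arm (fun i => f (i + 1)) (m + 1) = 2 * arm f (m + 1 + 1) + 2 := by
          have h12 : 2 * arm f (m + 1 + 1) + 1 < arm (fun i => f (i + 1)) (m + 1) := by
            generalize arm (fun i => f (i + 1)) (m + 1) = x₂ at *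
            generalize mass (fun i => f (i + 1)) (m + 1) = P at *
            generalize (2 : ℤ) ^ (m + 1) = K at *
            generalize arm f (m + 1 + 1) = x at *
            by_contra hcon
            push Not at hcon
            nlinarith [mul_nonneg (by omega : 0 ≤ K - 1) (by omega : 0 ≤ 2 * x + 1 - x₂)]
          omega
        have h12 : (f 0 : ℤ) = 0 := by omega
        obtain ⟨h13, h14⟩ := ih' hh (by
          rw [h11]
          rw [h12] at hP
          have : 2 ^ (m + 1) * (2 * arm f (m + 1 + 1) + 2 + 2) =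
              2 * 2 ^ (m + 1) * (arm f (m + 1 + 1) + 2) := by ring
          rw [this]
          omega)
        refine ⟨by rw [h12]; linarith, fun _ => ?_⟩
        have h15 := h14 hm
        rw [arm_succ f (m + 1), arm_succ f (m + 1 + 1)]
        apply h_mono
        change arm (fun i => f (i + 1)) (m + 1) ≤ arm (fun i => f (i + 1)) (m + 1 + 1) at h15
        linarith

end Q122.Hub
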