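import Pool.Agent.Q122.Hub.Bounds

set_option autoImplicit false

/-!
# Periodic configurations without a good cut
-/

namespace Q122.Hub

open Finset

/-- the value of the right arm of length `m` at `v` -/
def R (P : ℤ → ℕ) (v : ℤ) (m : ℕ) : ℤ := arm (fun i => P (v + 1 + i)) m

/-- the value of the left arm of length `m` at `v` -/
def L (P : ℤ → ℕ) (v : ℤ) (m : ℕ) : ℤ := arm (fun i => P (v - 1 - i)) m

/-- the number of pebbles in a window -/
def W (P : ℤ → ℕ) (a : ℤ) (m : ℕ) : ℤ := ∑ i ∈ range m, (P (a + i) : ℤ)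

/-- no cut is good -/
def Bad (P : ℤ → ℕ) (n : ℕ) : Prop :=
  ∀ (v : ℤ) (l r : ℕ), l + r + 1 = n → (P v : ℤ) + L P v l + R P v r ≤ 0

/-- mirror image -/
def mir (P : ℤ → ℕ) : ℤ → ℕ := fun i => P (-i)

lemma mir_mir (P : ℤ → ℕ) : mir (mir P) = P := by
  funext i
  simp [mir]

lemma R_mir (P : ℤ → ℕ) (v : ℤ) (m : ℕ) : R (mir P) v m = L P (-v) m := by
  unfold R L mir
  congr 1
  funext i
  congr 1
  ring

lemma L_mir (P : ℤ → ℕ) (v : ℤ) (m : ℕ) : L (mir P) v m = R P (-v) m := by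
  unfold R L mir
  congr 1
  funext i
  congr 1
  ring

lemma Bad.mir {P : ℤ → ℕ} {n : ℕ} (hb : Bad P n) : Bad (mir P) n := by
  intro v l r hlr
  rw [R_mir, L_mir]
  have := hb (-v) r l (by omega)
  unfold Hub.mir
  linarith

lemma W_zero (P : ℤ → ℕ) (a : ℤ) : W P a 0 = 0 := by simp [W]

lemma W_succ (P : ℤ → ℕ) (a : ℤ) (m : ℕ) : W P a (m + 1) = W P a m + P (a + m) := by
  unfold W
  rw [sum_range_succ]

lemma W_add (P : ℤ → ℕ) (a : ℤ) (m m' : ℕ) : W P a (m + m') = W P a m + W P (a + m) m' := by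
  induction m' with
  | zero => simp [W_zero]
  | succ m' ih =>
    rw [← add_assoc, W_succ, W_succ, ih, add_assoc]
    congr 3
    push_cast
    ring_nf

lemma W_one (P : ℤ → ℕ) (a : ℤ) : W P a 1 = P a := by
  rw [W_succ, W_zero]
  simp

lemma W_succ_left (P : ℤ → ℕ) (a : ℤ) (m : ℕ) : W P a (m + 1) = P a + W P (a + 1) m := by
  rw [add_comm m 1, W_add, W_one]
  simp

lemma W_nonneg (P : ℤ → ℕ) (a : ℤ) (m : ℕ) : 0 ≤ W P a m :=
  sum_nonneg fun _ _ => Int.natCast_nonneg _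

lemma massR_eq (P : ℤ → ℕ) (v : ℤ) (m : ℕ) :
    mass (fun i => P (v + 1 + i)) m = W P (v + 1) m := rfl

lemma massL_eq (P : ℤ → ℕ) (v : ℤ) (m : ℕ) :
    mass (fun i => P (v - 1 - i)) m = W P (v - m) m := by
  induction m with
  | zero => simp [W_zero, mass_zero]
  | succ m ih =>
    rw [mass_succ', ih, W_succ_left, add_comm]
    congr 1
    · congr 2
      push_cast
      ring
    · congr 1
      push_cast
      ring

lemma W_mir (P : ℤ → ℕ) (v : ℤ) (m : ℕ) : W (mir P) (v + 1) m = W P (-v - m) m := by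
  rw [← massL_eq, ← massR_eq]
  unfold mir
  congr 1
  funext i
  congr 1
  ring

section

variable {P : ℤ → ℕ} {n : ℕ} (hper : ∀ i, P (i + n) = P i)

include hper

lemma W_period (a : ℤ) (m : ℕ) : W P (a + n) m = W P a m := by
  unfold W
  refine sum_congr rfl fun i _ => ?_
  rw [show a + (n : ℤ) + i = a + i + n by ring, hper]

lemma R_period (v : ℤ) (m : ℕ) : R P (v + n) m = R P v m := by
  unfold R
  congr 1
  funext i
  rw [show v + (n : ℤ) + 1 + i = v + 1 + i + n by ring, hper]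

lemma L_period (v : ℤ) (m : ℕ) : L P (v + n) m = L P v m := by
  unfold L
  congr 1
  funext i
  rw [show v + (n : ℤ) - 1 - i = v - 1 - i + n by ring, hper]

lemma mir_period (i : ℤ) : mir P (i + n) = mir P i := by
  unfold mir
  have := hper (-(i + n))
  rw [← this]
  congr 1
  ring

lemma W_total (a b : ℤ) : W P a n = W P b n := by
  have h1 : ∀ a, W P (a + 1) n = W P a n := by
    intro a
    have h2 := W_succ_left P a n
    have h3 := W_succ P a n
    rw [h2] at h3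
    rw [hper] at h3
    omega
  have h2 : ∀ a, W P a n = W P 0 n := by
    intro a
    induction a using Int.induction_on with
    | zero => rfl
    | succ i ih => rw [h1, ih]
    | pred i ih =>
      have := h1 (-(i : ℤ) - 1)
      rw [← this]
      have h4 : -(i : ℤ) - 1 + 1 = -i := by ring
      rw [h4, ih]
  rw [h2 a, h2 b]

end

/-- the right arm is heavy -/
def HR (P : ℤ → ℕ) (v : ℤ) (l r : ℕ) : Prop :=
  0 ≤ R P v r ∧ 2 ^ r - 2 + R P v r ≤ W P (v + 1) r ∧ (0 ≤ L P v l → 2 ^ r - 1 ≤ W P (v + 1) r)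

/-- the left arm is heavy -/
def HL (P : ℤ → ℕ) (v : ℤ) (l r : ℕ) : Prop :=
  0 ≤ L P v l ∧ 2 ^ l - 2 + L P v l ≤ W P (v - l) l ∧ (0 ≤ R P v r → 2 ^ l - 1 ≤ W P (v - l) l)

lemma HR_mir (P : ℤ → ℕ) (v : ℤ) (l r : ℕ) : HR (mir P) v l r ↔ HL P (-v) r l := by
  unfold HR HL
  rw [R_mir, L_mir, W_mir]

section

variable {P : ℤ → ℕ} {n : ℕ} (hper : ∀ i, P (i + n) = P i) (hb : Bad P n)
  {T : ℤ} (hT : ∀ a, W P a n = T)

include hT in
lemma total_split {l r : ℕ} (hlr : l + r + 1 = n) (v : ℤ) :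
    W P (v - l) l + P v + W P (v + 1) r = T := by
  have h1 := hT (v - l)
  rw [← hlr, add_assoc, W_add, add_comm r 1, W_add, W_one] at h1
  have h2 : v - (l : ℤ) + l = v := by ring
  rw [h2] at h1
  push_cast at h1
  linarith

include hb hT in
lemma dich {l r : ℕ} (hlr : l + r + 1 = n) (hl : 1 ≤ l) (hr : 1 ≤ r) (hT' : T = 2 ^ l + 2 ^ r - 3)
    (v : ℤ) (hN : ¬ (R P v r < 0 ∧ L P v l < 0)) : HR P v l r ∨ HL P v l r := by
  have h1 := total_split hT hlr v
  have h2 := hb v l r hlr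
  have h3 : (0 : ℤ) ≤ P v := Int.natCast_nonneg _
  obtain ⟨l, rfl⟩ : ∃ j, l = j + 1 := ⟨l - 1, by omega⟩
  obtain ⟨r, rfl⟩ : ∃ j, r = j + 1 := ⟨r - 1, by omega⟩
  have hcR := (arm_cm r fun i => P (v + 1 + i)).2
  have hcL := (arm_cm l fun i => P (v - 1 - i)).2
  rw [massR_eq] at hcR
  rw [massL_eq] at hcL
  change R P v (r + 1) < 0 → W P (v + 1) (r + 1) - R P v (r + 1) ≤ _ at hcR
  change L P v (l + 1) < 0 → _ - L P v (l + 1) ≤ _ at hcL
  unfold HR HL
  generalize R P v (r + 1) = x at *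
  generalize L P v (l + 1) = y at *
  generalize W P (v + 1) (r + 1) = A at *
  generalize W P (v - ((l + 1 : ℕ) : ℤ)) (l + 1) = B at *
  generalize (2 : ℤ) ^ (r + 1) = K at *
  generalize (2 : ℤ) ^ (l + 1) = J at *
  rcases lt_or_ge x 0 with hx | hx
  · right
    have := hcR hx
    refine ⟨by omega, by omega, by omega⟩
  · rcases lt_or_ge y 0 with hy | hy
    · left
      have := hcL hy
      refine ⟨by omega, by omega, by omega⟩
    · by_cases hA : K - 1 ≤ A
      · left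
        refine ⟨by omega, by omega, by omega⟩
      · right
        refine ⟨by omega, by omega, by omega⟩

include hT in
lemma not_both {l r : ℕ} (hlr : l + r + 1 = n) (hT' : T = 2 ^ l + 2 ^ r - 3)
    (v : ℤ) (h1 : HR P v l r) (h2 : HL P v l r) : False := by
  have h3 := total_split hT hlr v
  have h4 : (0 : ℤ) ≤ P v := Int.natCast_nonneg _
  obtain ⟨a1, a2, a3⟩ := h1
  obtain ⟨b1, b2, b3⟩ := h2
  have := a3 b1
  have := b3 a1
  omega

include hper hb hT in
lemma step {l r : ℕ} (hlr : l + r + 1 = n) (hl : 1 ≤ l) (hr : 1 ≤ r) (hT' : T = 2 ^ l + 2 ^ r - 3)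
    (v : ℤ) (h1 : HR P v l r) : ¬ HR P (v + r) r l := by
  intro h2
  obtain ⟨a1, a2, a3⟩ := h1
  obtain ⟨b1, b2, b3⟩ := h2
  have h3 := total_split hT hlr v
  have h4 : (0 : ℤ) ≤ P v := Int.natCast_nonneg _
  -- the left arm of `v` is the right arm of `w`
  have h5 : W P (v - l) l = W P (v + r + 1) l := by
    rw [← W_period hper (v - l)]
    congr 1
    rw [← hlr]
    push_cast
    ring
  have hbv := hb v l r hlr
  have hbw := hb (v + r) r l (by omega)
  -- windows at w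
  have h6 : W P (v + r - r) r + P (v + r) = P v + W P (v + 1) r := by
    rw [add_sub_cancel_right, ← W_succ, W_succ_left]
  have h7 : (0 : ℤ) ≤ P (v + r) := Int.natCast_nonneg _
  rcases lt_or_ge (L P v l) 0 with hy | hy
  · have h8 : L P v l ≤ -2 := arm_neg_le hy
    obtain ⟨l, rfl⟩ : ∃ j, l = j + 1 := ⟨l - 1, by omega⟩
    have hcL := (arm_cm l fun i => P (v - 1 - i)).2 hy
    rw [massL_eq] at hcL
    change _ - L P v (l + 1) ≤ _ at hcL
    omega
  · have h8 := a3 hy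
    have h9 : P v = 0 := by omega
    rcases lt_or_ge (L P (v + r) r) 0 with hz | hz
    · obtain ⟨r, rfl⟩ : ∃ j, r = j + 1 := ⟨r - 1, by omega⟩
      have hlast : P (v + ((r + 1 : ℕ) : ℤ) - 1 - (r : ℕ)) = 0 := by
        rw [← h9]
        congr 1
        push_cast
        ring
      have hcL := (arm_cm' r (fun i => P (v + ((r + 1 : ℕ) : ℤ) - 1 - i)) hlast).2 hz
      rw [massL_eq] at hcL
      change _ - L P (v + ((r + 1 : ℕ) : ℤ)) (r + 1) ≤ _ at hcL
      omega
    · have := b3 hz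
      omega

end

end Q122.Hub
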