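import Mathlib

set_option autoImplicit false

/-!
# Strong hub cover pebbling
-/

namespace Q122.Hub

/-- A pebbling move takes two pebbles off a vertex `u` and puts one pebble on a neighbour `v`. -/
def Move {V : Type} (G : SimpleGraph V) (p q : V → ℕ) : Prop :=
  ∃ u v, G.Adj u v ∧ 2 ≤ p u ∧ q u = p u - 2 ∧ q v = p v + 1 ∧ ∀ w, w ≠ u → w ≠ v → q w = p w

/-- `q` can be reached from `p` by finitely many pebbling moves. -/
def Reach {V : Type} (G : SimpleGraph V) (p q : V → ℕ) : Prop :=
  Relation.ReflTransGen (Move G) p q

/-- A nonempty set `U` of vertices is a strong hub set if any two distinct vertices are joined by a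
path all of whose internal vertices are in `U`. -/
def IsStrongHub {V : Type} (G : SimpleGraph V) (U : Set V) : Prop :=
  U.Nonempty ∧ ∀ x y, x ≠ y →
    ∃ w : G.Walk x y, w.IsPath ∧ ∀ z ∈ w.support, z ≠ x → z ≠ y → z ∈ U

/-- From `p` some sequence of pebbling moves reaches a configuration in which every vertex of some
strong hub set carries a pebble. -/
def Coverable {V : Type} (G : SimpleGraph V) (p : V → ℕ) : Prop :=
  ∃ q, Reach G p q ∧ ∃ U, IsStrongHub G U ∧ ∀ u ∈ U, 1 ≤ q u

/-- Every configuration with `t` pebbles is coverable. -/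
def HubProperty {V : Type} [Fintype V] (G : SimpleGraph V) (t : ℕ) : Prop :=
  ∀ p : V → ℕ, ∑ v, p v = t → Coverable G p

/-- The strong hub cover pebbling number: the least `t` such that every configuration with `t`
pebbles is coverable. -/
noncomputable def hubNumber {V : Type} [Fintype V] (G : SimpleGraph V) : ℕ :=
  sInf {t | HubProperty G t}

end Q122.Hub
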