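import Pool.Agent.Q122.Hub.Cyc

set_option autoImplicit false

/-!
# Both arms negative
-/

namespace Q122.Hub

open Finset

lemma arm_tight (m : ℕ) (hm : 2 ≤ m) (f : ℕ → ℕ) (hx : arm f (m + 1) < 0)
    (hP : 2 ^ (m + 1) - 2 ≤ mass f (m + 1) - arm f (m + 1)) :
    (mass f (m + 1) ≤ 2 ∧ (mass f (m + 1) - arm f (m + 1) = 2 ^ (m + 1) - 1 →
      mass f (m + 1) = 1 ∧ f m = 1)) ∨
    (arm f (m + 1) = -2 ∧ 2 ^ (m + 1) - 4 ≤ mass f (m + 1) ∧
      mass f (m + 1) ≤ 2 ^ (m + 1) - 3 ∧ mass f (m + 1) - 1 ≤ f m ∧ -2 ≤ arm f (m + 2)) := by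
  obtain ⟨j, rfl⟩ : ∃ j, m = j + 1 := ⟨m - 1, by omega⟩
  obtain ⟨h1, h2⟩ := arm_cm j fun i => f (i + 1)
  have h3 := arm_ge j fun i => f (i + 1)
  have h4 := mass_nonneg (fun i => f (i + 1)) (j + 1)
  have h5 : (2 : ℤ) ^ (j + 1 + 1) = 2 * 2 ^ (j + 1) := by ring
  have h6 : (4 : ℤ) ≤ 2 ^ (j + 1) := by
    obtain ⟨i, rfl⟩ : ∃ i, j = i + 1 := ⟨j - 1, by omega⟩
    have := two_pow_pos i
    rw [pow_succ, pow_succ]
    omega
  have h7 : (0 : ℤ) ≤ f 0 := Int.natCast_nonneg _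
  have hm1 := mass_succ f (j + 1)
  have hm2 := mass_succ' f (j + 1)
  have h0 := mass_nonneg f (j + 1)
  have hs : (f 0 : ℤ) - 1 + arm (fun i => f (i + 1)) (j + 1) < 0 := by
    by_contra hcon
    rw [arm_succ, ← not_le, h_nonneg] at hx
    omega
  have hval := arm_succ f (j + 1)
  rw [h_of_neg hs] at hval
  rcases lt_or_ge (arm (fun i => f (i + 1)) (j + 1)) 0 with hh | hh
  · left
    have h8 := h2 hh
    have h9 : mass f (j + 1 + 1) ≤ 2 := by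
      rw [h5] at hP
      omega
    refine ⟨h9, fun h10 => ?_⟩
    have h11 : f (j + 1) ≠ 0 := by
      intro h12
      have := (arm_cm' (j + 1) f h12).2 hx
      omega
    have h12 : (1 : ℤ) ≤ f (j + 1) := by
      have : 1 ≤ f (j + 1) := Nat.one_le_iff_ne_zero.2 h11
      exact_mod_cast this
    have h13 : mass f (j + 1 + 1) ≤ 1 := by
      rw [h5] at h10
      omega
    have h14 : (f (j + 1) : ℤ) = 1 := by omega
    exact ⟨by omega, by exact_mod_cast h14⟩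
  · right
    have h8 : arm (fun i => f (i + 1)) (j + 1) = 0 := by omega
    have h9 : (f 0 : ℤ) = 0 := by omega
    have h10 : arm f (j + 1 + 1) = -2 := by omega
    have h11 := h1 hh
    rw [h8] at h11
    obtain ⟨h12, h13⟩ := arm_far j (fun i => f (i + 1)) hh (by
      rw [h8]
      omega)
    refine ⟨h10, by omega, by omega, by omega, ?_⟩
    have h14 := h13 (by omega)
    rw [h8] at h14
    have h15 : h (-1) ≤ arm f (j + 1 + 2) := by
      rw [arm_succ]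
      apply h_mono
      change 0 ≤ arm (fun i => f (i + 1)) (j + 1 + 1) at h14
      omega
    have h16 : h (-1) = -2 := by
      rw [h_of_neg (by norm_num)]
      norm_num
    omega

section

variable {P : ℤ → ℕ} {n : ℕ} (hper : ∀ i, P (i + n) = P i) (hb : Bad P n)
  {T : ℤ} (hT : ∀ a, W P a n = T)

include hb hT in
lemma aux1 {l r : ℕ} (hlr : l + r + 1 = n) (hl : 3 ≤ l) (hr : 3 ≤ r) (hT' : T = 2 ^ l + 2 ^ r - 3)
    (v : ℤ) (hA : W P (v + 1) r ≤ 1) (hA' : P (v + r) = 1) (hB : W P (v - l) l ≤ 2) : False := by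
  obtain ⟨l, rfl⟩ : ∃ j, l = j + 2 := ⟨l - 2, by omega⟩
  obtain ⟨r, rfl⟩ : ∃ j, r = j + 1 := ⟨r - 1, by omega⟩
  have h1 := total_split hT hlr v
  have h2 := hb v (l + 1) (r + 2) (by omega)
  have h3 : -(2 ^ (l + 1) - 2 : ℤ) ≤ L P v (l + 1) := arm_ge l _
  have h4 : -(2 ^ (r + 1) - 2 : ℤ) ≤ R P v (r + 1) := arm_ge r _
  have h5 : R P v (r + 1) ≤ R P v (r + 2) := by
    apply arm_ext
    left
    have h6 : P (v + 1 + r) = 1 := by
      rw [← hA']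
      congr 1
      push_cast
      ring
    rw [h6]
  have h6 : (2 : ℤ) ^ (l + 2) = 2 * 2 ^ (l + 1) := by ring
  have h7 : (4 : ℤ) ≤ 2 ^ (l + 1) := by
    obtain ⟨i, rfl⟩ : ∃ i, l = i + 1 := ⟨l - 1, by omega⟩
    have := two_pow_pos i
    rw [pow_succ, pow_succ]
    omega
  rw [hT', h6] at h1
  omega

include hb hT in
lemma aux2 {l r : ℕ} (hlr : l + r + 1 = n) (hl : 3 ≤ l) (hT' : T = 2 ^ l + 2 ^ r - 3)
    (v : ℤ) (hA : W P (v + 1) r ≤ 2 ^ r - 3) (hA' : -2 ≤ R P v (r + 1))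
    (hB : W P (v - l) l ≤ 2) : False := by
  obtain ⟨l, rfl⟩ : ∃ j, l = j + 2 := ⟨l - 2, by omega⟩
  have h1 := total_split hT hlr v
  have h2 := hb v (l + 1) (r + 1) (by omega)
  have h3 : -(2 ^ (l + 1) - 2 : ℤ) ≤ L P v (l + 1) := arm_ge l _
  have h6 : (2 : ℤ) ^ (l + 2) = 2 * 2 ^ (l + 1) := by ring
  have h7 : (4 : ℤ) ≤ 2 ^ (l + 1) := by
    obtain ⟨i, rfl⟩ : ∃ i, l = i + 1 := ⟨l - 1, by omega⟩
    have := two_pow_pos i
    rw [pow_succ, pow_succ]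
    omega
  rw [hT', h6] at h1
  omega

include hper hb hT in
lemma aux3 {l r : ℕ} (hlr : l + r + 1 = n) (hl : 3 ≤ l) (hr : 3 ≤ r) (hT' : T = 2 ^ l + 2 ^ r - 3)
    (v : ℤ) (hA : W P (v + 1) r ≤ 2 ^ r - 3) (hB : W P (v - l) l ≤ 2 ^ l - 3)
    (hA' : 2 ^ r - 5 ≤ (P (v + r) : ℤ)) (hB' : 2 ^ l - 5 ≤ (P (v - l) : ℤ)) : False := by
  obtain ⟨l, rfl⟩ : ∃ j, l = j + 1 := ⟨l - 1, by omega⟩
  obtain ⟨r, rfl⟩ : ∃ j, r = j + 2 := ⟨r - 2, by omega⟩
  have h1 := total_split hT hlr v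
  have h2 := hb (v + ((r + 2 : ℕ) : ℤ)) (r + 2) (l + 1) (by omega)
  have h8 : (2 : ℤ) ≤ P v := by omega
  have h3 : -(2 ^ (r + 1) - 2 : ℤ) ≤ L P (v + ((r + 2 : ℕ) : ℤ)) (r + 2) := by
    apply arm_ge'
    have h9 : P (v + ((r + 2 : ℕ) : ℤ) - 1 - ((r + 1 : ℕ) : ℤ)) = P v := by
      congr 1
      push_cast
      ring
    rw [h9]
    exact_mod_cast h8
  have h4 : (2 : ℤ) ^ (l + 1) = 2 * 2 ^ l := by ring
  have h5 : (4 : ℤ) ≤ 2 ^ l := by
    obtain ⟨i, rfl⟩ : ∃ i, l = i + 2 := ⟨l - 2, by omega⟩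
    have := two_pow_pos i
    rw [pow_succ, pow_succ]
    omega
  have h6 : 0 ≤ R P (v + ((r + 2 : ℕ) : ℤ)) (l + 1) := by
    apply arm_first
    have h9 : P (v + ((r + 2 : ℕ) : ℤ) + 1 + ((0 : ℕ) : ℤ)) = P (v - ((l + 1 : ℕ) : ℤ)) := by
      rw [← hper (v - ((l + 1 : ℕ) : ℤ))]
      congr 1
      rw [← hlr]
      push_cast
      ring
    rw [h9]
    omega
  have h7 : (2 : ℤ) ^ (r + 2) = 2 * 2 ^ (r + 1) := by ring
  have h10 : (4 : ℤ) ≤ 2 ^ (r + 1) := by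
    obtain ⟨i, rfl⟩ : ∃ i, r = i + 1 := ⟨r - 1, by omega⟩
    have := two_pow_pos i
    rw [pow_succ, pow_succ]
    omega
  omega

include hper hb hT in
lemma final {l r : ℕ} (hlr : l + r + 1 = n) (hl : 3 ≤ l) (hr : 3 ≤ r) (hT' : T = 2 ^ l + 2 ^ r - 3)
    (v : ℤ) (hx : R P v r < 0) (hy : L P v l < 0) : False := by
  have h1 := total_split hT hlr v
  have h2 := hb v l r hlr
  have h0 : (0 : ℤ) ≤ P v := Int.natCast_nonneg _
  have hcR : W P (v + 1) r - R P v r ≤ 2 ^ r - 1 := by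
    obtain ⟨r, rfl⟩ : ∃ j, r = j + 1 := ⟨r - 1, by omega⟩
    exact (arm_cm r fun i => P (v + 1 + i)).2 hx
  have hcL : W P (v - l) l - L P v l ≤ 2 ^ l - 1 := by
    obtain ⟨l, rfl⟩ : ∃ j, l = j + 1 := ⟨l - 1, by omega⟩
    have := (arm_cm l fun i => P (v - 1 - i)).2 hy
    rwa [massL_eq] at this
  have hA : (W P (v + 1) r ≤ 2 ∧ (W P (v + 1) r - R P v r = 2 ^ r - 1 →
        W P (v + 1) r = 1 ∧ P (v + r) = 1)) ∨
      (R P v r = -2 ∧ 2 ^ r - 4 ≤ W P (v + 1) r ∧ W P (v + 1) r ≤ 2 ^ r - 3 ∧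
        W P (v + 1) r - 1 ≤ P (v + r) ∧ -2 ≤ R P v (r + 1)) := by
    obtain ⟨r, rfl⟩ : ∃ j, r = j + 1 := ⟨r - 1, by omega⟩
    have h3 : v + ((r + 1 : ℕ) : ℤ) = v + 1 + r := by
      push_cast
      ring
    rw [h3]
    refine arm_tight r (by omega) (fun i => P (v + 1 + i)) hx ?_
    rw [massR_eq]
    change _ ≤ _ - R P v (r + 1)
    omega
  have hB : (W P (v - l) l ≤ 2 ∧ (W P (v - l) l - L P v l = 2 ^ l - 1 →
        W P (v - l) l = 1 ∧ P (v - l) = 1)) ∨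
      (L P v l = -2 ∧ 2 ^ l - 4 ≤ W P (v - l) l ∧ W P (v - l) l ≤ 2 ^ l - 3 ∧
        W P (v - l) l - 1 ≤ P (v - l) ∧ -2 ≤ L P v (l + 1)) := by
    obtain ⟨l, rfl⟩ : ∃ j, l = j + 1 := ⟨l - 1, by omega⟩
    rw [← massL_eq]
    have h3 : P (v - ((l + 1 : ℕ) : ℤ)) = P (v - 1 - l) := by
      congr 1
      push_cast
      ring
    rw [h3]
    refine arm_tight l (by omega) (fun i => P (v - 1 - i)) hy ?_
    rw [massL_eq]
    change _ ≤ _ - L P v (l + 1)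
    omega
  -- the mirror image
  have hTm : ∀ a, W (mir P) a n = T := by
    intro a
    have h4 := W_mir P (a - 1) n
    rw [sub_add_cancel] at h4
    rw [h4, hT]
  have hWm : W (mir P) (-v + 1) l = W P (v - l) l := by
    rw [W_mir, neg_neg]
  have hWm' : W (mir P) (-v - r) r = W P (v + 1) r := by
    have h4 := W_mir (mir P) v r
    rw [mir_mir] at h4
    exact h4.symm
  rcases hA with ⟨hA1, hA2⟩ | ⟨hA1, hA2, hA3, hA4, hA5⟩
  · rcases hB with ⟨hB1, hB2⟩ | ⟨hB1, hB2, hB3, hB4, hB5⟩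
    · -- near, near
      by_cases hA3 : W P (v + 1) r - R P v r = 2 ^ r - 1
      · obtain ⟨h5, h6⟩ := hA2 hA3
        exact aux1 hb hT hlr hl hr hT' v (by omega) h6 hB1
      · have hB3 : W P (v - l) l - L P v l = 2 ^ l - 1 := by omega
        obtain ⟨h5, h6⟩ := hB2 hB3
        refine aux1 (P := mir P) hb.mir hTm (l := r) (r := l) (by omega) hr hl (by omega) (-v)
          (by rw [hWm]; omega) ?_ (by rw [hWm']; omega)
        unfold mir
        rw [← h6]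
        congr 1
        ring
    · -- near, far
      refine aux2 (P := mir P) hb.mir hTm (l := r) (r := l) (by omega) hr (by omega) (-v)
        (by rw [hWm]; omega) ?_ (by rw [hWm']; omega)
      rw [R_mir, neg_neg]
      exact hB5
  · rcases hB with ⟨hB1, hB2⟩ | ⟨hB1, hB2, hB3, hB4, hB5⟩
    · exact aux2 hb hT hlr hl hT' v (by omega) hA5 hB1
    · exact aux3 hper hb hT hlr hl hr hT' v (by omega) (by omega) (by omega) (by omega)

end

end Q122.Hub
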