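import Pool.Agent.Q122.Hub.Sets

set_option autoImplicit false

/-!
# The lower bound and the main theorem
-/

namespace Q122.Hub

open Finset SimpleGraph

/-- distance from the vertex `0` -/
def D {n : ℕ} (u : Fin n) : ℕ := min u.val (n - u.val)

/-- weight of a configuration -/
def Phi {n : ℕ} (q : Fin n → ℕ) : ℕ := ∑ u, q u * 2 ^ D u

lemma D_adj {n : ℕ} (hn2 : 2 ≤ n) {u v : Fin n} (huv : (cycleGraph n).Adj u v) :
    D v ≤ D u + 1 := by
  rw [adj_iff hn2] at huv
  have hu := u.2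
  have hv := v.2
  unfold D
  have key : ∀ x : ℤ, -n ≤ x → x < n → (n : ℤ) ∣ x → x = 0 ∨ x = -n := by
    rintro x h1 h2 ⟨d, rfl⟩
    have hn : (0 : ℤ) < n := by omega
    have h3 : d < 1 := by
      by_contra hcon
      push Not at hcon
      nlinarith
    have h4 : -2 < d := by
      by_contra hcon
      push Not at hcon
      nlinarith
    have h5 : d = 0 ∨ d = -1 := by omega
    rcases h5 with rfl | rfl
    · left; ring
    · right; ring
  rcases huv with h | h
  · have := key _ (by omega) (by omega) h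
    omega
  · have := key _ (by omega) (by omega) h
    omega

lemma sum_le_of_pair {n : ℕ} {f g : Fin n → ℕ} {u v : Fin n} (huv : u ≠ v)
    (h1 : ∀ w, w ≠ u → w ≠ v → f w = g w) (h2 : f u + f v ≤ g u + g v) :
    ∑ w, f w ≤ ∑ w, g w := by
  have key : ∀ f : Fin n → ℕ, ∑ w, f w = f u + (f v + ∑ w ∈ (univ.erase u).erase v, f w) := by
    intro f
    rw [add_sum_erase _ f (mem_erase.2 ⟨huv.symm, mem_univ v⟩), add_sum_erase _ f (mem_univ u)]
  rw [key f, key g]
  have h3 : ∑ w ∈ (univ.erase u).erase v, f w = ∑ w ∈ (univ.erase u).erase v, g w := by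
    refine sum_congr rfl fun w hw => ?_
    rw [mem_erase, mem_erase] at hw
    exact h1 w hw.2.1 hw.1
  omega

lemma Phi_move {n : ℕ} (hn2 : 2 ≤ n) {p q : Fin n → ℕ} (hm : Move (cycleGraph n) p q) :
    Phi q ≤ Phi p := by
  obtain ⟨u, v, huv, h1, h2, h3, h4⟩ := hm
  refine sum_le_of_pair huv.ne ?_ ?_
  · intro w hw1 hw2
    rw [h4 w hw1 hw2]
  · rw [h2, h3]
    have h5 : 2 ^ D v ≤ 2 * 2 ^ D u := by
      have := Nat.pow_le_pow_right (n := 2) (by norm_num) (D_adj hn2 huv)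
      rw [pow_succ] at this
      linarith
    obtain ⟨a, ha⟩ : ∃ a, p u = a + 2 := ⟨p u - 2, by omega⟩
    rw [ha, Nat.add_sub_cancel]
    nlinarith

lemma Phi_reach {n : ℕ} (hn2 : 2 ≤ n) {p q : Fin n → ℕ} (hr : Reach (cycleGraph n) p q) :
    Phi q ≤ Phi p := by
  induction hr with
  | refl => exact le_refl _
  | tail _ hm ih => exact (Phi_move hn2 hm).trans ih

lemma geo (k : ℕ) : ∑ i ∈ range k, 2 ^ i + 1 = 2 ^ k := by
  induction k with
  | zero => simp
  | succ k ih =>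
    rw [sum_range_succ, pow_succ]
    omega

lemma geo' (k : ℕ) : ∑ i ∈ range k, 2 ^ (k - i) + 2 = 2 ^ (k + 1) := by
  induction k with
  | zero => simp
  | succ k ih =>
    rw [sum_range_succ']
    have h1 : ∑ i ∈ range k, 2 ^ (k + 1 - (i + 1)) = ∑ i ∈ range k, 2 ^ (k - i) := by
      refine sum_congr rfl fun i _ => ?_
      congr 1
      omega
    rw [h1, pow_succ 2 (k + 1)]
    simp only [Nat.sub_zero]
    omega

lemma sum_odd (k : ℕ) : ∑ u : Fin (2 * k + 1), 2 ^ D u + 3 = 2 ^ (k + 1) + 2 ^ (k + 1) := by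
  unfold D
  rw [Fin.sum_univ_eq_sum_range (fun i => 2 ^ min i (2 * k + 1 - i)) (2 * k + 1)]
  have h0 : 2 * k + 1 = k + 1 + k := by omega
  rw [h0, sum_range_add]
  have h1 : ∑ i ∈ range (k + 1), 2 ^ min i (k + 1 + k - i) = ∑ i ∈ range (k + 1), 2 ^ i := by
    refine sum_congr rfl fun i hi => ?_
    rw [mem_range] at hi
    congr 1
    omega
  have h2 : ∑ i ∈ range k, 2 ^ min (k + 1 + i) (k + 1 + k - (k + 1 + i)) =
      ∑ i ∈ range k, 2 ^ (k - i) := by
    refine sum_congr rfl fun i hi => ?_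
    rw [mem_range] at hi
    congr 1
    omega
  rw [h1, h2]
  have := geo (k + 1)
  have := geo' k
  omega

lemma sum_even (k : ℕ) : ∑ u : Fin (2 * k), 2 ^ D u + 3 = 2 ^ k + 2 ^ (k + 1) := by
  unfold D
  rw [Fin.sum_univ_eq_sum_range (fun i => 2 ^ min i (2 * k - i)) (2 * k)]
  have h0 : 2 * k = k + k := by omega
  rw [h0, sum_range_add]
  have h1 : ∑ i ∈ range k, 2 ^ min i (k + k - i) = ∑ i ∈ range k, 2 ^ i := by
    refine sum_congr rfl fun i hi => ?_
    rw [mem_range] at hi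
    congr 1
    omega
  have h2 : ∑ i ∈ range k, 2 ^ min (k + i) (k + k - (k + i)) =
      ∑ i ∈ range k, 2 ^ (k - i) := by
    refine sum_congr rfl fun i hi => ?_
    rw [mem_range] at hi
    congr 1
    omega
  rw [h1, h2]
  have := geo k
  have := geo' k
  omega

/-- the weight of a configuration which covers a strong hub set -/
lemma Phi_ge {n : ℕ} (hn : 0 < n) (hn3 : 3 ≤ n) {q : Fin n → ℕ} {U : Set (Fin n)}
    (hU : IsStrongHub (cycleGraph n) U) (hq : ∀ u ∈ U, 1 ≤ q u) :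
    ∃ x y : Fin n, x ≠ y ∧ ∑ u : Fin n, 2 ^ D u ≤ Phi q + 2 ^ D x + 2 ^ D y := by
  classical
  obtain ⟨a, ha⟩ := hub_contains hn hn3 hU
  have hne : c n hn a ≠ c n hn (a + 1) := by
    intro h
    have := c_inj_of_lt hn h (by omega) (by omega)
    omega
  refine ⟨c n hn a, c n hn (a + 1), hne, ?_⟩
  have h1 : ∀ u : Fin n, 2 ^ D u ≤ q u * 2 ^ D u +
      ((if u = c n hn a then 2 ^ D u else 0) + if u = c n hn (a + 1) then 2 ^ D u else 0) := by
    intro u
    by_cases h1 : u = c n hn a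
    · rw [if_pos h1]
      omega
    · by_cases h2 : u = c n hn (a + 1)
      · rw [if_pos h2]
        omega
      · have h3 := hq u (ha u h1 h2)
        have := Nat.mul_le_mul_right (2 ^ D u) h3
        omega
  have h2 := sum_le_sum (fun u (_ : u ∈ (univ : Finset (Fin n))) => h1 u)
  rw [sum_add_distrib, sum_add_distrib, sum_ite_eq', sum_ite_eq', if_pos (mem_univ _),
    if_pos (mem_univ _)] at h2
  unfold Phi
  omega

lemma not_property {n T t : ℕ} (hn3 : 3 ≤ n)
    (hT : ∀ q : Fin n → ℕ, ∀ U, IsStrongHub (cycleGraph n) U → (∀ u ∈ U, 1 ≤ q u) → T ≤ Phi q)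
    (ht : t < T) : ¬ HubProperty (cycleGraph n) t := by
  classical
  intro h
  have hn : 0 < n := by omega
  obtain ⟨q, h1, U, hU, hq⟩ := h (fun u => if u = ⟨0, hn⟩ then t else 0) (by
    rw [sum_ite_eq', if_pos (mem_univ _)])
  have h2 := Phi_reach (by omega) h1
  have h3 : Phi (fun u : Fin n => if u = ⟨0, hn⟩ then t else 0) = t := by
    unfold Phi
    simp only [ite_mul, zero_mul]
    rw [sum_ite_eq', if_pos (mem_univ _)]
    unfold D
    simp
  have h4 := hT q U hU hq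
  omega

lemma bound_odd {k : ℕ} (hk : 1 ≤ k) (q : Fin (2 * k + 1) → ℕ) (U : Set (Fin (2 * k + 1)))
    (hU : IsStrongHub (cycleGraph (2 * k + 1)) U) (hq : ∀ u ∈ U, 1 ≤ q u) :
    2 ^ (k + 1) - 3 ≤ Phi q := by
  obtain ⟨x, y, -, hxy⟩ := Phi_ge (by omega) (by omega) hU hq
  have h1 := sum_odd k
  have h2 : ∀ u : Fin (2 * k + 1), 2 ^ D u ≤ 2 ^ k := by
    intro u
    apply Nat.pow_le_pow_right (by norm_num)
    have := u.2
    unfold D
    omega
  have h3 := h2 x
  have h4 := h2 y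
  have h5 : 2 ^ (k + 1) = 2 * 2 ^ k := by ring
  omega

lemma bound_even {k : ℕ} (hk : 2 ≤ k) (q : Fin (2 * k) → ℕ) (U : Set (Fin (2 * k)))
    (hU : IsStrongHub (cycleGraph (2 * k)) U) (hq : ∀ u ∈ U, 1 ≤ q u) :
    2 ^ k + 2 ^ (k - 1) - 3 ≤ Phi q := by
  obtain ⟨x, y, hne, hxy⟩ := Phi_ge (by omega) (by omega) hU hq
  have h1 := sum_even k
  obtain ⟨j, rfl⟩ : ∃ j, k = j + 1 := ⟨k - 1, by omega⟩
  have h2 : ∀ u : Fin (2 * (j + 1)), 2 ^ D u ≤ 2 ^ (j + 1) := by
    intro u
    apply Nat.pow_le_pow_right (by norm_num)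
    have := u.2
    unfold D
    omega
  have h2' : ∀ u : Fin (2 * (j + 1)), u.val ≠ j + 1 → 2 ^ D u ≤ 2 ^ j := by
    intro u hu
    apply Nat.pow_le_pow_right (by norm_num)
    have := u.2
    unfold D
    omega
  have h5 : 2 ^ (j + 1) = 2 * 2 ^ j := by ring
  have h6 : 2 ^ (j + 1 + 1) = 4 * 2 ^ j := by ring
  have hk1 : j + 1 - 1 = j := rfl
  rw [hk1]
  by_cases hx : x.val = j + 1
  · have hy : y.val ≠ j + 1 := by
      intro hy
      exact hne (Fin.ext (hx.trans hy.symm))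
    have h3 := h2 x
    have h4 := h2' y hy
    omega
  · have h3 := h2' x hx
    have h4 := h2 y
    omega

/-- the upper bound -/
lemma property_of_good {n t : ℕ} (hn3 : 3 ≤ n) (hgood : ∀ P : ℤ → ℕ, (∀ i, P (i + n) = P i) →
    (∀ a, W P a n = t) → ¬ Bad P n) : HubProperty (cycleGraph n) t := by
  intro p hp
  have hn : 0 < n := by omega
  have hper : ∀ i : ℤ, (fun i => p (c n hn i)) (i + n) = (fun i => p (c n hn i)) i := by
    intro i
    simp only [c_period]
  have hW : ∀ a, W (fun i => p (c n hn i)) a n = t := by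
    intro a
    rw [W_total hper a 0]
    unfold W
    rw [Finset.sum_range]
    simp only [zero_add, c_coe]
    rw [← hp]
    push_cast
    rfl
  obtain ⟨q, a, h1, h2⟩ := good_cover hn hn3 p (hgood _ hper hW)
  exact ⟨q, h1, _, strongHub_compl hn hn3 a, fun u hu => h2 u hu.1 hu.2⟩

theorem property_odd {k : ℕ} (hk : 1 ≤ k) :
    HubProperty (cycleGraph (2 * k + 1)) (2 ^ (k + 1) - 3) := by
  apply property_of_good (by omega)
  intro P hper hT
  apply odd_good' hk hper
  intro a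
  rw [hT a]
  have h1 : 3 ≤ 2 ^ (k + 1) := by
    have : 2 ^ 2 ≤ 2 ^ (k + 1) := Nat.pow_le_pow_right (by norm_num) (by omega)
    omega
  push_cast [Nat.cast_sub h1]
  ring

theorem property_even {k : ℕ} (hk : 2 ≤ k) :
    HubProperty (cycleGraph (2 * k)) (2 ^ k + 2 ^ (k - 1) - 3) := by
  apply property_of_good (by omega)
  intro P hper hT
  apply even_good' hk hper
  intro a
  rw [hT a]
  have h1 : 3 ≤ 2 ^ k + 2 ^ (k - 1) := by
    have h2 : 2 ^ 2 ≤ 2 ^ k := Nat.pow_le_pow_right (by norm_num) (by omega)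
    exact le_trans (by norm_num) (le_trans h2 (Nat.le_add_right _ _))
  push_cast [Nat.cast_sub h1]
  ring

theorem least_odd {k : ℕ} (hk : 1 ≤ k) :
    IsLeast {t | HubProperty (cycleGraph (2 * k + 1)) t} (2 ^ (k + 1) - 3) := by
  refine ⟨property_odd hk, ?_⟩
  intro t ht
  by_contra hcon
  exact not_property (by omega) (bound_odd hk) (not_le.1 hcon) ht

theorem least_even {k : ℕ} (hk : 2 ≤ k) :
    IsLeast {t | HubProperty (cycleGraph (2 * k)) t} (2 ^ k + 2 ^ (k - 1) - 3) := by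
  refine ⟨property_even hk, ?_⟩
  intro t ht
  by_contra hcon
  exact not_property (by omega) (bound_even hk) (not_le.1 hcon) ht

end Q122.Hub
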