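import Pool.Agent.Q122.Hub.Parity

set_option autoImplicit false

/-!
# Small cycles
-/

namespace Q122.Hub

open Finset

/-- check all `i < n` -/
def allB (n : ℕ) (f : ℕ → Bool) : Bool := Nat.rec true (fun i r => f i && r) n

lemma allB_spec {n : ℕ} {f : ℕ → Bool} (hf : allB n f = true) : ∀ i < n, f i = true := by
  induction n with
  | zero => intro i hi; omega
  | succ n ih =>
    intro i hi
    have h1 : (f n && allB n f) = true := hf
    rw [Bool.and_eq_true] at h1
    rcases Nat.lt_succ_iff_lt_or_eq.1 hi with h2 | h2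
    · exact ih h1.2 i h2
    · rw [h2]
      exact h1.1

/-- the cut before the first vertex is good -/
def chk : List ℕ → Bool
  | [] => false
  | a :: l => decide (0 ≤ (a : ℤ) + List.foldr (fun (x : ℕ) (y : ℤ) => h ((x : ℤ) - 1 + y)) 1 l)

def g3 (a b c : ℕ) : Bool := chk [a, b, c] || chk [b, c, a] || chk [c, a, b]

def g4 (a b c d : ℕ) : Bool :=
  chk [a, b, c, d] || chk [b, c, d, a] || chk [c, d, a, b] || chk [d, a, b, c]

def g5 (a b c d e : ℕ) : Bool :=
  chk [a, b, c, d, e] || chk [b, c, d, e, a] || chk [c, d, e, a, b] || chk [d, e, a, b, c] ||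
    chk [e, a, b, c, d]

def g6 (a b c d e f : ℕ) : Bool :=
  chk [a, b, c, d, e, f] || chk [b, c, d, e, f, a] || chk [c, d, e, f, a, b] ||
    chk [d, e, f, a, b, c] || chk [e, f, a, b, c, d] || chk [f, a, b, c, d, e]

theorem g3_all : allB 2 (fun a => allB (2 - a) fun b => g3 a b (1 - a - b)) = true := by
  decide +kernel

theorem g4_all : allB 4 (fun a => allB (4 - a) fun b => allB (4 - a - b) fun c =>
    g4 a b c (3 - a - b - c)) = true := by
  decide +kernel

theorem g5_all : allB 6 (fun a => allB (6 - a) fun b => allB (6 - a - b) fun c =>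
    allB (6 - a - b - c) fun d => g5 a b c d (5 - a - b - c - d)) = true := by
  decide +kernel

theorem g6_all : allB 10 (fun a => allB (10 - a) fun b => allB (10 - a - b) fun c =>
    allB (10 - a - b - c) fun d => allB (10 - a - b - c - d) fun e =>
      g6 a b c d e (9 - a - b - c - d - e)) = true := by
  decide +kernel

lemma arm_foldr (m : ℕ) : ∀ f : ℕ → ℕ,
    arm f m =
      List.foldr (fun (x : ℕ) (y : ℤ) => h ((x : ℤ) - 1 + y)) 1 ((List.range m).map f) := by
  induction m with
  | zero => intro f; rfl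
  | succ m ih =>
    intro f
    rw [arm_succ, List.range_succ_eq_map, List.map_cons, List.foldr_cons, ih, List.map_map]
    rfl

lemma bad_chk {P : ℤ → ℕ} {m : ℕ} (hb : Bad P (m + 1)) (v : ℤ) (l : List ℕ)
    (hl : l = P v :: (List.range m).map (fun i : ℕ => P (v + 1 + i))) : chk l = false := by
  subst hl
  have h1 := hb v 0 m (by omega)
  unfold chk
  rw [decide_eq_false_iff_not, ← arm_foldr]
  change (P v : ℤ) + 1 + arm (fun i => P (v + 1 + i)) m ≤ 0 at h1
  omega

theorem small3 {P : ℤ → ℕ} (hper : ∀ i, P (i + ((3 : ℕ) : ℤ)) = P i)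
    (hT : W P 0 3 = 1) : ¬ Bad P 3 := by
  intro hb
  have p0 : P 3 = P 0 := by simpa using hper 0
  have p1 : P 4 = P 1 := by simpa using hper 1
  have hs : P 0 + P 1 + P 2 = 1 := by
    rw [W, sum_range_succ, sum_range_succ, sum_range_succ, sum_range_zero] at hT
    norm_num at hT
    omega
  have h1 := allB_spec (allB_spec g3_all (P 0) (by omega)) (P 1) (by omega)
  have e : 1 - P 0 - P 1 = P 2 := by omega
  rw [e] at h1
  have c0 := bad_chk hb 0 [P 0, P 1, P 2] (by norm_num [List.range_succ])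
  have c1 := bad_chk hb 1 [P 1, P 2, P 0] (by norm_num [List.range_succ, p0])
  have c2 := bad_chk hb 2 [P 2, P 0, P 1] (by norm_num [List.range_succ, p0, p1])
  unfold g3 at h1
  rw [c0, c1, c2] at h1
  exact absurd h1 (by decide)

theorem small4 {P : ℤ → ℕ} (hper : ∀ i, P (i + ((4 : ℕ) : ℤ)) = P i)
    (hT : W P 0 4 = 3) : ¬ Bad P 4 := by
  intro hb
  have p0 : P 4 = P 0 := by simpa using hper 0
  have p1 : P 5 = P 1 := by simpa using hper 1
  have p2 : P 6 = P 2 := by simpa using hper 2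
  have hs : P 0 + P 1 + P 2 + P 3 = 3 := by
    rw [W, sum_range_succ, sum_range_succ, sum_range_succ, sum_range_succ, sum_range_zero] at hT
    norm_num at hT
    omega
  have h1 := allB_spec (allB_spec (allB_spec g4_all (P 0) (by omega)) (P 1) (by omega)) (P 2)
    (by omega)
  have e : 3 - P 0 - P 1 - P 2 = P 3 := by omega
  rw [e] at h1
  have c0 := bad_chk hb 0 [P 0, P 1, P 2, P 3] (by norm_num [List.range_succ])
  have c1 := bad_chk hb 1 [P 1, P 2, P 3, P 0] (by norm_num [List.range_succ, p0])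
  have c2 := bad_chk hb 2 [P 2, P 3, P 0, P 1] (by norm_num [List.range_succ, p0, p1])
  have c3 := bad_chk hb 3 [P 3, P 0, P 1, P 2] (by norm_num [List.range_succ, p0, p1, p2])
  unfold g4 at h1
  rw [c0, c1, c2, c3] at h1
  exact absurd h1 (by decide)

theorem small5 {P : ℤ → ℕ} (hper : ∀ i, P (i + ((5 : ℕ) : ℤ)) = P i)
    (hT : W P 0 5 = 5) : ¬ Bad P 5 := by
  intro hb
  have p0 : P 5 = P 0 := by simpa using hper 0
  have p1 : P 6 = P 1 := by simpa using hper 1
  have p2 : P 7 = P 2 := by simpa using hper 2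
  have p3 : P 8 = P 3 := by simpa using hper 3
  have hs : P 0 + P 1 + P 2 + P 3 + P 4 = 5 := by
    rw [W, sum_range_succ, sum_range_succ, sum_range_succ, sum_range_succ, sum_range_succ,
      sum_range_zero] at hT
    norm_num at hT
    omega
  have h1 := allB_spec (allB_spec (allB_spec (allB_spec g5_all (P 0) (by omega)) (P 1)
    (by omega)) (P 2) (by omega)) (P 3) (by omega)
  have e : 5 - P 0 - P 1 - P 2 - P 3 = P 4 := by omega
  rw [e] at h1
  have c0 := bad_chk hb 0 [P 0, P 1, P 2, P 3, P 4] (by norm_num [List.range_succ])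
  have c1 := bad_chk hb 1 [P 1, P 2, P 3, P 4, P 0] (by norm_num [List.range_succ, p0])
  have c2 := bad_chk hb 2 [P 2, P 3, P 4, P 0, P 1] (by norm_num [List.range_succ, p0, p1])
  have c3 := bad_chk hb 3 [P 3, P 4, P 0, P 1, P 2] (by norm_num [List.range_succ, p0, p1, p2])
  have c4 := bad_chk hb 4 [P 4, P 0, P 1, P 2, P 3]
    (by norm_num [List.range_succ, p0, p1, p2, p3])
  unfold g5 at h1
  rw [c0, c1, c2, c3, c4] at h1
  exact absurd h1 (by decide)

theorem small6 {P : ℤ → ℕ} (hper : ∀ i, P (i + ((6 : ℕ) : ℤ)) = P i)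
    (hT : W P 0 6 = 9) : ¬ Bad P 6 := by
  intro hb
  have p0 : P 6 = P 0 := by simpa using hper 0
  have p1 : P 7 = P 1 := by simpa using hper 1
  have p2 : P 8 = P 2 := by simpa using hper 2
  have p3 : P 9 = P 3 := by simpa using hper 3
  have p4 : P 10 = P 4 := by simpa using hper 4
  have hs : P 0 + P 1 + P 2 + P 3 + P 4 + P 5 = 9 := by
    rw [W, sum_range_succ, sum_range_succ, sum_range_succ, sum_range_succ, sum_range_succ,
      sum_range_succ, sum_range_zero] at hT
    norm_num at hT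
    omega
  have h1 := allB_spec (allB_spec (allB_spec (allB_spec (allB_spec g6_all (P 0) (by omega)) (P 1)
    (by omega)) (P 2) (by omega)) (P 3) (by omega)) (P 4) (by omega)
  have e : 9 - P 0 - P 1 - P 2 - P 3 - P 4 = P 5 := by omega
  rw [e] at h1
  have c0 := bad_chk hb 0 [P 0, P 1, P 2, P 3, P 4, P 5] (by norm_num [List.range_succ])
  have c1 := bad_chk hb 1 [P 1, P 2, P 3, P 4, P 5, P 0] (by norm_num [List.range_succ, p0])
  have c2 := bad_chk hb 2 [P 2, P 3, P 4, P 5, P 0, P 1]
    (by norm_num [List.range_succ, p0, p1])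
  have c3 := bad_chk hb 3 [P 3, P 4, P 5, P 0, P 1, P 2]
    (by norm_num [List.range_succ, p0, p1, p2])
  have c4 := bad_chk hb 4 [P 4, P 5, P 0, P 1, P 2, P 3]
    (by norm_num [List.range_succ, p0, p1, p2, p3])
  have c5 := bad_chk hb 5 [P 5, P 0, P 1, P 2, P 3, P 4]
    (by norm_num [List.range_succ, p0, p1, p2, p3, p4])
  unfold g6 at h1
  rw [c0, c1, c2, c3, c4, c5] at h1
  exact absurd h1 (by decide)

theorem odd_good' {k : ℕ} (hk : 1 ≤ k) {P : ℤ → ℕ}
    (hper : ∀ i, P (i + ((2 * k + 1 : ℕ) : ℤ)) = P i)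
    (hT : ∀ a, W P a (2 * k + 1) = 2 ^ k + 2 ^ k - 3) : ¬ Bad P (2 * k + 1) := by
  rcases Nat.lt_or_ge k 3 with hk' | hk'
  · interval_cases k
    · exact small3 hper (by rw [hT 0]; norm_num)
    · exact small5 hper (by rw [hT 0]; norm_num)
  · exact odd_good hk' hper hT

theorem even_good' {k : ℕ} (hk : 2 ≤ k) {P : ℤ → ℕ}
    (hper : ∀ i, P (i + ((2 * k : ℕ) : ℤ)) = P i)
    (hT : ∀ a, W P a (2 * k) = 2 ^ (k - 1) + 2 ^ k - 3) : ¬ Bad P (2 * k) := by
  rcases Nat.lt_or_ge k 4 with hk' | hk'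
  · interval_cases k
    · exact small4 hper (by rw [hT 0]; norm_num)
    · exact small6 hper (by rw [hT 0]; norm_num)
  · exact even_good hk' hper hT

end Q122.Hub
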