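import Pool.Agent.Q122.Hub.Real
import Pool.Agent.Q122.Hub.Small

set_option autoImplicit false

/-!
# The cycle graph
-/

namespace Q122.Hub

open Finset SimpleGraph

/-- the vertex with the number `i` modulo `n` -/
def c (n : ℕ) (hn : 0 < n) (i : ℤ) : Fin n :=
  ⟨(i % n).toNat, by
    have h1 : 0 ≤ i % n := Int.emod_nonneg _ (by omega)
    have h2 : i % n < n := Int.emod_lt_of_pos _ (by omega)
    omega⟩

section

variable {n : ℕ} (hn : 0 < n)

lemma c_val (i : ℤ) : ((c n hn i).val : ℤ) = i % n := by
  unfold c
  have h1 : 0 ≤ i % n := Int.emod_nonneg _ (by omega)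
  simp only
  omega

lemma c_eq_iff (i j : ℤ) : c n hn i = c n hn j ↔ (n : ℤ) ∣ i - j := by
  rw [Fin.ext_iff, ← Int.natCast_inj, c_val, c_val, ← Int.emod_emod_of_dvd i (dvd_refl (n : ℤ)),
    Int.emod_emod_of_dvd i (dvd_refl (n : ℤ)), Int.emod_eq_emod_iff_emod_sub_eq_zero,
    Int.dvd_iff_emod_eq_zero]

lemma c_coe (u : Fin n) : c n hn (u.val : ℤ) = u := by
  rw [Fin.ext_iff, ← Int.natCast_inj, c_val]
  exact Int.emod_eq_of_lt (by omega) (by have := u.2; omega)

lemma c_period (i : ℤ) : c n hn (i + n) = c n hn i := by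
  rw [c_eq_iff]
  exact ⟨1, by ring⟩

lemma adj_iff (hn2 : 2 ≤ n) (u v : Fin n) : (cycleGraph n).Adj u v ↔
    (n : ℤ) ∣ (u.val : ℤ) - v.val - 1 ∨ (n : ℤ) ∣ (v.val : ℤ) - u.val - 1 := by
  have key : ∀ u v : Fin n, (u - v).val = 1 ↔ (n : ℤ) ∣ (u.val : ℤ) - v.val - 1 := by
    intro u v
    have hu := u.2
    have hv := v.2
    rw [Fin.sub_def]
    simp only
    constructor
    · intro h
      have h1 : ((n - v.val + u.val : ℕ) : ℤ) % n = 1 := by
        exact_mod_cast h
      have h2 := Int.emod_add_mul_ediv ((n - v.val + u.val : ℕ) : ℤ) n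
      rw [h1] at h2
      refine ⟨((n - v.val + u.val : ℕ) : ℤ) / n - 1, ?_⟩
      have h3 : ((n - v.val + u.val : ℕ) : ℤ) = n - v.val + u.val := by
        push_cast [Nat.cast_sub hv.le]
        ring
      rw [h3] at h2 ⊢
      linarith
    · rintro ⟨d, hd⟩
      have h3 : ((n - v.val + u.val : ℕ) : ℤ) = n - v.val + u.val := by
        push_cast [Nat.cast_sub hv.le]
        ring
      have h4 : ((n - v.val + u.val : ℕ) : ℤ) = 1 + (d + 1) * n := by
        rw [h3]
        linarith
      have h5 : ((n - v.val + u.val : ℕ) : ℤ) % n = 1 := by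
        rw [h4, Int.add_mul_emod_self_right]
        exact Int.emod_eq_of_lt (by omega) (by omega)
      exact_mod_cast h5
  rw [cycleGraph_adj', key, key]

lemma adj_c (hn2 : 2 ≤ n) (i j : ℤ) : (cycleGraph n).Adj (c n hn i) (c n hn j) ↔
    (n : ℤ) ∣ i - j - 1 ∨ (n : ℤ) ∣ j - i - 1 := by
  rw [adj_iff hn2, c_val, c_val]
  have key : ∀ i j : ℤ, (n : ℤ) ∣ i % n - j % n - 1 ↔ (n : ℤ) ∣ i - j - 1 := by
    intro i j
    have h1 : i % n - j % n - 1 = i - j - 1 - n * (i / n - j / n) := by
      have h2 := Int.emod_add_mul_ediv i n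
      have h3 := Int.emod_add_mul_ediv j n
      linarith
    rw [h1]
    constructor
    · intro h
      have := dvd_add h (dvd_mul_right (n : ℤ) (i / n - j / n))
      rwa [sub_add_cancel] at this
    · intro h
      exact dvd_sub h (dvd_mul_right _ _)
  rw [key, key]

lemma adj_succ (hn2 : 2 ≤ n) (i : ℤ) : (cycleGraph n).Adj (c n hn i) (c n hn (i + 1)) := by
  rw [adj_c hn hn2]
  right
  simp

lemma c_inj_of_lt {i j : ℤ} (h : c n hn i = c n hn j) (h1 : i - j < n) (h2 : j - i < n) :
    i = j := by
  rw [c_eq_iff] at h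
  have := Int.eq_zero_of_abs_lt_dvd h (by
    rw [abs_lt]
    constructor <;> omega)
  omega

/-- a good cut can be realized -/
theorem good_cover (hn3 : 3 ≤ n) (p : Fin n → ℕ) (hgood : ¬ Bad (fun i => p (c n hn i)) n) :
    ∃ q a, Reach (cycleGraph n) p q ∧
      ∀ u, u ≠ c n hn a → u ≠ c n hn (a + 1) → 1 ≤ q u := by
  classical
  unfold Bad at hgood
  push Not at hgood
  obtain ⟨v, l, r, hlr, hval⟩ := hgood
  have hn2 : 2 ≤ n := by omega
  -- right vertices and left vertices
  set x : ℕ → Fin n := fun i => c n hn (v + i) with hx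
  set y : ℕ → Fin n := fun i => c n hn (v - i) with hy
  have hxadj : ∀ i, (cycleGraph n).Adj (x i) (x (i + 1)) := by
    intro i
    have := adj_succ hn hn2 (v + i)
    have h2 : v + (i : ℤ) + 1 = v + ((i + 1 : ℕ) : ℤ) := by
      push_cast
      ring
    rw [h2] at this
    exact this
  have hyadj : ∀ i, (cycleGraph n).Adj (y i) (y (i + 1)) := by
    intro i
    have := (adj_succ hn hn2 (v - ((i + 1 : ℕ) : ℤ))).symm
    have h2 : v - ((i + 1 : ℕ) : ℤ) + 1 = v - i := by
      push_cast
      ring
    rw [h2] at this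
    exact this
  have hxinj : ∀ i < n, ∀ j < n, x i = x j → i = j := by
    intro i hi j hj hij
    have := c_inj_of_lt hn hij (by omega) (by omega)
    omega
  have hyinj : ∀ i < n, ∀ j < n, y i = y j → i = j := by
    intro i hi j hj hij
    have := c_inj_of_lt hn hij (by omega) (by omega)
    omega
  have hxy : ∀ i j, 1 ≤ i + j → i + j < n → x i ≠ y j := by
    intro i j h1 h2 hij
    have := c_inj_of_lt hn hij (by omega) (by omega)
    omega
  have hR : ∀ q : Fin n → ℕ, ∀ m, arm (fun i => q (x (i + 1))) m =
      R (fun i => q (c n hn i)) v m := by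
    intro q m
    unfold R
    congr 1
    funext i
    simp only [hx]
    congr 2
    push_cast
    ring
  have hL : ∀ q : Fin n → ℕ, ∀ m, arm (fun i => q (y (i + 1))) m =
      L (fun i => q (c n hn i)) v m := by
    intro q m
    unfold L
    congr 1
    funext i
    simp only [hy]
    congr 2
    push_cast
    ring
  have hx0 : x 0 = c n hn v := by
    simp only [hx]
    congr 1
    simp
  have hy0 : y 0 = c n hn v := by
    simp only [hy]
    congr 1
    simp
  have hyr : c n hn (v + r + 1) = y l := by
    simp only [hy]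
    rw [c_eq_iff]
    refine ⟨1, ?_⟩
    rw [← hlr]
    push_cast
    ring
  -- every vertex is on one of the arms
  have hall : ∀ u : Fin n, (∃ i ≤ r, u = x i) ∨ ∃ j, 1 ≤ j ∧ j ≤ l ∧ u = y j := by
    intro u
    have h1 : 0 ≤ ((u.val : ℤ) - v) % n := Int.emod_nonneg _ (by omega)
    have h2 : ((u.val : ℤ) - v) % n < n := Int.emod_lt_of_pos _ (by omega)
    have h3 := Int.emod_add_mul_ediv ((u.val : ℤ) - v) n
    obtain ⟨d, hd⟩ : ∃ d : ℕ, (d : ℤ) = ((u.val : ℤ) - v) % n :=
      ⟨_, Int.toNat_of_nonneg h1⟩
    rw [← hd] at h2 h3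
    by_cases hdr : d ≤ r
    · left
      refine ⟨d, hdr, ?_⟩
      rw [← c_coe hn u]
      simp only [hx]
      rw [c_eq_iff]
      exact ⟨((u.val : ℤ) - v) / n, by linarith⟩
    · right
      refine ⟨n - d, by omega, by omega, ?_⟩
      rw [← c_coe hn u]
      simp only [hy]
      rw [c_eq_iff]
      refine ⟨((u.val : ℤ) - v) / n + 1, ?_⟩
      push_cast [Nat.cast_sub (by omega : d ≤ n)]
      linarith
  rcases Nat.eq_zero_or_pos l with hl | hl
  · -- no left arm
    subst hl
    have hr : 1 ≤ r := by omega
    obtain ⟨m, rfl⟩ : ∃ m, r = m + 1 := ⟨r - 1, by omega⟩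
    have h1 : L (fun i => p (c n hn i)) v 0 = 1 := rfl
    rw [h1] at hval
    obtain ⟨q, k1, k2, k3, k4⟩ := realize m x p (fun i _ => hxadj i)
      (fun i hi j hj => hxinj i (by omega) j (by omega)) (by
        rw [hR, hx0]
        omega)
    refine ⟨q, v + ((m + 1 : ℕ) : ℤ), k1, ?_⟩
    intro u hu hu'
    rcases hall u with ⟨i, hi, rfl⟩ | ⟨j, hj1, hj2, rfl⟩
    · rcases Nat.eq_zero_or_pos i with h | h
      · exfalso
        apply hu'
        rw [h, hyr, hx0, hy0]
      · refine k3 i h ?_
        by_contra hcon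
        apply hu
        have : i = m + 1 := by omega
        rw [this]
    · omega
  · rcases Nat.eq_zero_or_pos r with hr | hr
    · -- no right arm
      subst hr
      obtain ⟨m, rfl⟩ : ∃ m, l = m + 1 := ⟨l - 1, by omega⟩
      have h1 : R (fun i => p (c n hn i)) v 0 = 1 := rfl
      rw [h1] at hval
      obtain ⟨q, k1, k2, k3, k4⟩ := realize m y p (fun i _ => hyadj i)
        (fun i hi j hj => hyinj i (by omega) j (by omega)) (by
          rw [hL, hy0]
          omega)
      refine ⟨q, v, k1, ?_⟩
      intro u hu hu'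
      rcases hall u with ⟨i, hi, rfl⟩ | ⟨j, hj1, hj2, rfl⟩
      · exfalso
        apply hu
        have : i = 0 := by omega
        rw [this, hx0]
      · refine k3 j hj1 ?_
        by_contra hcon
        apply hu'
        have h2 : j = m + 1 := by omega
        rw [h2, ← hyr]
        congr 1
        push_cast
        ring
    · -- two arms
      obtain ⟨m, rfl⟩ : ∃ m, l = m + 1 := ⟨l - 1, by omega⟩
      obtain ⟨k, rfl⟩ : ∃ k, r = k + 1 := ⟨r - 1, by omega⟩
      have hfin : ∃ q, Reach (cycleGraph n) p q ∧ 1 ≤ q (c n hn v) ∧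
          (∀ i, 1 ≤ i → i ≤ k → 1 ≤ q (x i)) ∧ ∀ j, 1 ≤ j → j ≤ m → 1 ≤ q (y j) := by
        rcases le_or_gt 0 ((p (c n hn v) : ℤ) + R (fun i => p (c n hn i)) v (k + 1))
          with hcase | hcase
        · obtain ⟨q, k1, k2, k3, k4⟩ := realize k x p (fun i _ => hxadj i)
            (fun i hi j hj => hxinj i (by omega) j (by omega)) (by
              rw [hR, hx0]
              exact hcase)
          have harm : arm (fun i => q (y (i + 1))) (m + 1) =
              arm (fun i => p (y (i + 1))) (m + 1) := by
            apply le_antisymm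
            · apply arm_mono
              intro i hi
              rw [k4 _ fun j hj => (hxy j (i + 1) (by omega) (by omega)).symm]
            · apply arm_mono
              intro i hi
              rw [k4 _ fun j hj => (hxy j (i + 1) (by omega) (by omega)).symm]
          rw [hR, hx0] at k2
          obtain ⟨q', j1, j2, j3, j4⟩ := realize m y q (fun i _ => hyadj i)
            (fun i hi j hj => hyinj i (by omega) j (by omega)) (by
              rw [harm, hL, hy0, k2]
              omega)
          rw [harm, hL, hy0, k2] at j2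
          refine ⟨q', k1.trans j1, by omega, ?_, j3⟩
          intro i hi1 hi2
          rw [j4 _ fun j hj => hxy i j (by omega) (by omega)]
          exact k3 i hi1 hi2
        · obtain ⟨q, k1, k2, k3, k4⟩ := realize m y p (fun i _ => hyadj i)
            (fun i hi j hj => hyinj i (by omega) j (by omega)) (by
              rw [hL, hy0]
              omega)
          have harm : arm (fun i => q (x (i + 1))) (k + 1) =
              arm (fun i => p (x (i + 1))) (k + 1) := by
            apply le_antisymm
            · apply arm_mono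
              intro i hi
              rw [k4 _ fun j hj => hxy (i + 1) j (by omega) (by omega)]
            · apply arm_mono
              intro i hi
              rw [k4 _ fun j hj => hxy (i + 1) j (by omega) (by omega)]
          rw [hL, hy0] at k2
          obtain ⟨q', j1, j2, j3, j4⟩ := realize k x q (fun i _ => hxadj i)
            (fun i hi j hj => hxinj i (by omega) j (by omega)) (by
              rw [harm, hR, hx0, k2]
              omega)
          rw [harm, hR, hx0, k2] at j2
          refine ⟨q', k1.trans j1, by omega, j3, ?_⟩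
          intro i hi1 hi2
          rw [j4 _ fun j hj => (hxy j i (by omega) (by omega)).symm]
          exact k3 i hi1 hi2
      obtain ⟨q, k1, k2, k3, k4⟩ := hfin
      refine ⟨q, v + ((k + 1 : ℕ) : ℤ), k1, ?_⟩
      intro u hu hu'
      rcases hall u with ⟨i, hi, rfl⟩ | ⟨j, hj1, hj2, rfl⟩
      · rcases Nat.eq_zero_or_pos i with h | h
        · rw [h, hx0]
          exact k2
        · refine k3 i h ?_
          by_contra hcon
          apply hu
          have : i = k + 1 := by omega
          rw [this]
      · refine k4 j hj1 ?_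
        by_contra hcon
        apply hu'
        have h2 : j = m + 1 := by omega
        rw [h2, ← hyr]

end

end Q122.Hub
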