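import Pool.Agent.Q122.Hub.Final

set_option autoImplicit false

/-!
# The parity argument
-/

namespace Q122.Hub

open Finset

section

variable {P : ℤ → ℕ} {n : ℕ} (hper : ∀ i, P (i + n) = P i) (hb : Bad P n)
  {T : ℤ} (hT : ∀ a, W P a n = T)

include hper in
lemma HR_period (v : ℤ) (l r : ℕ) : HR P (v + n) l r ↔ HR P v l r := by
  unfold HR
  rw [R_period hper, L_period hper]
  have : v + (n : ℤ) + 1 = v + 1 + n := by ring
  rw [this, W_period hper]

include hT in
lemma mir_total (a : ℤ) : W (mir P) a n = T := by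
  have h4 := W_mir P (a - 1) n
  rw [sub_add_cancel] at h4
  rw [h4, hT]

include hper hb hT in
lemma step' {l r : ℕ} (hlr : l + r + 1 = n) (hl : 1 ≤ l) (hr : 1 ≤ r)
    (hT' : T = 2 ^ l + 2 ^ r - 3) (v : ℤ) (h1 : HL P v l r) : ¬ HL P (v - l) r l := by
  have h2 := step (P := mir P) (mir_period hper) hb.mir (mir_total hT) (l := r) (r := l)
    (by omega) hr hl (by omega) (-v) (by rwa [HR_mir, neg_neg])
  rw [HR_mir] at h2
  have h3 : -(-v + (l : ℤ)) = v - l := by ring
  rwa [h3] at h2

end

/-- an integer-indexed property which is invariant under the shift by one is constant -/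
lemma const_of_shift {A : ℤ → Prop} (hA : ∀ v, A (v - 1) ↔ A v) (v w : ℤ) : A v ↔ A w := by
  have h1 : ∀ v, A v ↔ A 0 := by
    intro v
    induction v using Int.induction_on with
    | zero => exact Iff.rfl
    | succ i ih =>
      have := hA (i + 1)
      rw [add_sub_cancel_right] at this
      exact this.symm.trans ih
    | pred i ih => exact (hA _).trans ih
  exact (h1 v).trans (h1 w).symm

theorem odd_good {k : ℕ} (hk : 3 ≤ k) {P : ℤ → ℕ}
    (hper : ∀ i, P (i + ((2 * k + 1 : ℕ) : ℤ)) = P i)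
    (hT : ∀ a, W P a (2 * k + 1) = 2 ^ k + 2 ^ k - 3) : ¬ Bad P (2 * k + 1) := by
  intro hb
  have hlr : k + k + 1 = 2 * k + 1 := by omega
  have hd : ∀ v, HR P v k k ∨ HL P v k k := fun v =>
    dich hb hT hlr (by omega) (by omega) rfl v fun h =>
      final hper hb hT hlr hk hk rfl v h.1 h.2
  have h1 : ∀ v, HR P v k k → ¬ HR P (v + k) k k := fun v =>
    step hper hb hT hlr (by omega) (by omega) rfl v
  have h2 : ∀ v, ¬ HR P (v + k) k k → HR P v k k := by
    intro v hv
    have h3 := (hd (v + k)).resolve_left hv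
    have h4 := step' hper hb hT hlr (by omega) (by omega) rfl (v + k) h3
    rw [add_sub_cancel_right] at h4
    exact (hd v).resolve_right h4
  have h3 : ∀ v, HR P v k k ↔ ¬ HR P (v + k) k k := fun v => ⟨h1 v, h2 v⟩
  have h4 : ∀ v, HR P (v - 1) k k ↔ HR P v k k := by
    intro v
    have h5 := h3 v
    have h6 := h3 (v + k)
    have h7 : v + (k : ℤ) + k = v - 1 + ((2 * k + 1 : ℕ) : ℤ) := by
      push_cast
      ring
    rw [h7, HR_period hper] at h6
    tauto
  have h5 := const_of_shift (A := fun v => HR P v k k) h4 0 (0 + k)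
  have h6 := h3 0
  tauto

theorem even_good {k : ℕ} (hk : 4 ≤ k) {P : ℤ → ℕ}
    (hper : ∀ i, P (i + ((2 * k : ℕ) : ℤ)) = P i)
    (hT : ∀ a, W P a (2 * k) = 2 ^ (k - 1) + 2 ^ k - 3) : ¬ Bad P (2 * k) := by
  intro hb
  have hlr : k - 1 + k + 1 = 2 * k := by omega
  have hlr' : k + (k - 1) + 1 = 2 * k := by omega
  have hT2 : (2 ^ (k - 1) + 2 ^ k - 3 : ℤ) = 2 ^ k + 2 ^ (k - 1) - 3 := by ring
  -- first cut: arms `k - 1` on the left and `k` on the right
  have ha : ∀ v, HR P v (k - 1) k ∨ HL P v (k - 1) k := fun v =>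
    dich hb hT hlr (by omega) (by omega) rfl v fun h =>
      final hper hb hT hlr (by omega) (by omega) rfl v h.1 h.2
  have ha' : ∀ v, HR P v (k - 1) k → HL P v (k - 1) k → False := fun v =>
    not_both hT hlr rfl v
  have hbb : ∀ v, HR P v k (k - 1) ∨ HL P v k (k - 1) := fun v =>
    dich hb hT hlr' (by omega) (by omega) hT2 v fun h =>
      final hper hb hT hlr' (by omega) (by omega) hT2 v h.1 h.2
  have hbb' : ∀ v, HR P v k (k - 1) → HL P v k (k - 1) → False := fun v =>
    not_both hT hlr' hT2 v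
  have h1 : ∀ v, HR P v (k - 1) k ↔ ¬ HR P (v + k) k (k - 1) := by
    intro v
    constructor
    · exact step hper hb hT hlr (by omega) (by omega) rfl v
    · intro hv
      have h3 := (hbb (v + k)).resolve_left hv
      have h4 := step' hper hb hT hlr' (by omega) (by omega) hT2 (v + k) h3
      rw [add_sub_cancel_right] at h4
      exact (ha v).resolve_right h4
  have h2 : ∀ v, HR P v k (k - 1) ↔ ¬ HR P (v + ((k - 1 : ℕ) : ℤ)) (k - 1) k := by
    intro v
    constructor
    · exact step hper hb hT hlr' (by omega) (by omega) hT2 v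
    · intro hv
      have h3 := (ha (v + ((k - 1 : ℕ) : ℤ))).resolve_left hv
      have h4 := step' hper hb hT hlr (by omega) (by omega) rfl _ h3
      rw [add_sub_cancel_right] at h4
      exact (hbb v).resolve_right h4
  have h4 : ∀ v, HR P (v - 1) (k - 1) k ↔ HR P v (k - 1) k := by
    intro v
    have h5 := h1 v
    have h6 := h2 (v + k)
    have h7 : v + (k : ℤ) + ((k - 1 : ℕ) : ℤ) = v - 1 + ((2 * k : ℕ) : ℤ) := by
      push_cast [Nat.cast_sub (by omega : 1 ≤ k)]
      ring
    rw [h7, HR_period hper] at h6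
    tauto
  have hconst := const_of_shift (A := fun v => HR P v (k - 1) k) h4
  by_cases hcase : HR P 0 (k - 1) k
  · -- all right arms of length `k` are heavy
    have hall : ∀ v, HR P v (k - 1) k := fun v => (hconst v 0).2 hcase
    have h5 : ¬ HR P (0 - k + k + 1 - k + k) k (k - 1) := by
      have := (h1 (0 - k + k + 1 - k)).1 (hall _)
      exact this
    have h6 : (0 : ℤ) - k + k + 1 - k + k = 1 := by ring
    rw [h6] at h5
    have h7 := (hbb 1).resolve_left h5
    have h8 : 0 ≤ L P 1 k := h7.1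
    have h9 : 0 ≤ R P 0 k := (hall 0).1
    obtain ⟨j, rfl⟩ : ∃ j, k = j + 1 := ⟨k - 1, by omega⟩
    have h10 : L P 1 (j + 1) = h ((P 0 : ℤ) - 1 + L P 0 j) := by
      unfold L
      rw [arm_succ]
      congr 2
      congr 1
      funext i
      congr 1
      push_cast
      ring
    rw [h10, h_nonneg] at h8
    have h11 := hb 0 j (j + 1) (by omega)
    omega
  · have hall : ∀ v, ¬ HR P v (k - 1) k := fun v hv => hcase ((hconst v 0).1 hv)
    have hL : ∀ v, 0 ≤ L P v (k - 1) := fun v => ((ha v).resolve_left (hall v)).1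
    have hR : ∀ v, 0 ≤ R P v (k - 1) := fun v => ((h2 v).2 (hall _)).1
    obtain ⟨j, rfl⟩ : ∃ j, k = j + 2 := ⟨k - 2, by omega⟩
    replace hT : ∀ a, W P a (2 * (j + 2)) = 2 ^ (j + 1) + 2 ^ (j + 2) - 3 := hT
    replace hL : ∀ v, 0 ≤ L P v (j + 1) := hL
    replace hR : ∀ v, 0 ≤ R P v (j + 1) := hR
    replace hlr : j + 1 + (j + 2) + 1 = 2 * (j + 2) := by omega
    -- arms of length `k` at nonempty vertices are negative
    have hRneg : ∀ v, 1 ≤ P v → R P v (j + 2) < 0 := by
      intro v hv
      have h5 := hb v (j + 1) (j + 2) (by omega)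
      have h6 := hL v
      have h7 : (1 : ℤ) ≤ P v := by exact_mod_cast hv
      omega
    have hLneg : ∀ v, 1 ≤ P v → L P v (j + 2) < 0 := by
      intro v hv
      have h5 := hb v (j + 2) (j + 1) (by omega)
      have h6 := hR v
      have h7 : (1 : ℤ) ≤ P v := by exact_mod_cast hv
      omega
    have hext : ∀ v, 1 ≤ P v → ¬ (P (v + 1 + j) % 2 = 1 ∨ 2 ≤ P (v + 1 + ((j + 1 : ℕ) : ℤ))) := by
      intro v hv h5
      have h6 : R P v (j + 1) ≤ R P v (j + 2) := arm_ext j _ h5
      have h7 := hR v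
      have h8 := hRneg v hv
      omega
    have hext' : ∀ v, 1 ≤ P v →
        ¬ (P (v - 1 - j) % 2 = 1 ∨ 2 ≤ P (v - 1 - ((j + 1 : ℕ) : ℤ))) := by
      intro v hv h5
      have h6 : L P v (j + 1) ≤ L P v (j + 2) := arm_ext j _ h5
      have h7 := hL v
      have h8 := hLneg v hv
      omega
    -- some vertex carries an odd number of pebbles
    obtain ⟨u, hu⟩ : ∃ u, P u % 2 = 1 := by
      by_contra hcon
      push Not at hcon
      have h5 := hT 0
      unfold W at h5
      have h6 : (2 : ℤ) ∣ ∑ i ∈ range (2 * (j + 2)), (P (0 + i) : ℤ) := by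
        refine dvd_sum fun i _ => ?_
        have := hcon (0 + i)
        omega
      rw [h5] at h6
      have h7 : (2 : ℤ) ∣ 2 ^ (j + 1) := dvd_pow_self _ (by omega)
      have h8 : (2 : ℤ) ∣ 2 ^ (j + 2) := dvd_pow_self _ (by omega)
      omega
    have hu1 : 1 ≤ P u := by omega
    have e1 : P (u + 1 + j) = 0 := by
      by_contra hcon
      apply hext' (u + 1 + j) (by omega)
      left
      rw [← hu]
      congr 2
      ring
    have e2 : P (u - 1 - j) = 0 := by
      by_contra hcon
      apply hext (u - 1 - j) (by omega)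
      left
      rw [← hu]
      congr 2
      ring
    have e3 : P (u + 1 + ((j + 1 : ℕ) : ℤ)) ≤ 1 := by
      by_contra hcon
      exact hext u hu1 (Or.inr (by omega))
    have e4 : P (u - 1 - ((j + 1 : ℕ) : ℤ)) ≤ 1 := by
      by_contra hcon
      exact hext' u hu1 (Or.inr (by omega))
    have h5 := (arm_two j (fun i => P (u + 1 + i)) e1 e3).2 (hRneg u hu1)
    have h6 := (arm_two j (fun i => P (u - 1 - i)) e2 e4).2 (hLneg u hu1)
    rw [massR_eq] at h5
    rw [massL_eq] at h6
    change _ - R P u (j + 2) ≤ _ at h5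
    change _ - L P u (j + 2) ≤ _ at h6
    have h7 := hb u (j + 1) (j + 2) (by omega)
    have h8 := hb u (j + 2) (j + 1) (by omega)
    have h9 := hL u
    have h10 := hR u
    -- the total
    have h11 := total_split hT hlr u
    have h12 : W P (u + 1) (j + 2) = W P (u + 1) j + P (u + 1 + j) +
        P (u + 1 + ((j + 1 : ℕ) : ℤ)) := by
      rw [W_succ, W_succ]
    have h13 : W P (u - ((j + 1 : ℕ) : ℤ)) (j + 1) = P (u - 1 - j) + W P (u - j) j := by
      rw [W_succ_left]
      congr 1
      · congr 2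
        push_cast
        ring
      · congr 1
        push_cast
        ring
    rw [h12, h13, e1, e2] at h11
    have h14 : (P (u + 1 + ((j + 1 : ℕ) : ℤ)) : ℤ) ≤ 1 := by exact_mod_cast e3
    have h15 : (2 : ℤ) ^ (j + 2) = 4 * 2 ^ j := by ring
    have h16 : (2 : ℤ) ^ (j + 1) = 2 * 2 ^ j := by ring
    have h17 : (4 : ℤ) ≤ 2 ^ j := by
      obtain ⟨i, rfl⟩ : ∃ i, j = i + 2 := ⟨j - 2, by omega⟩
      have := two_pow_pos i
      rw [pow_succ, pow_succ]
      omega
    rw [h15, h16] at h11
    omega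

end Q122.Hub
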