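import Pool.Agent.Q122.Hub.Defs
import Pool.Agent.Q122.Hub.Arm

set_option autoImplicit false

/-!
# Realizing the values of arms by pebbling moves
-/

namespace Q122.Hub

variable {V : Type} {G : SimpleGraph V}

lemma move_many {u v : V} (huv : G.Adj u v) (a : ℕ) : ∀ q : V → ℕ, 2 * a ≤ q u →
    ∃ q', Reach G q q' ∧ q' u = q u - 2 * a ∧ q' v = q v + a ∧
      ∀ w, w ≠ u → w ≠ v → q' w = q w := by
  classical
  induction a with
  | zero =>
    intro q _
    exact ⟨q, Relation.ReflTransGen.refl, by omega, by omega, fun _ _ _ => rfl⟩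
  | succ a ih =>
    intro q hq
    obtain ⟨q₁, h1, h2, h3, h4⟩ := ih q (by omega)
    have hne : v ≠ u := huv.ne'
    refine ⟨Function.update (Function.update q₁ u (q₁ u - 2)) v (q₁ v + 1), ?_, ?_, ?_, ?_⟩
    · refine Relation.ReflTransGen.tail h1 ⟨u, v, huv, by omega, ?_, ?_, ?_⟩
      · rw [Function.update_of_ne hne.symm, Function.update_self]
      · rw [Function.update_self]
      · intro w hwu hwv
        rw [Function.update_of_ne hwv, Function.update_of_ne hwu]
    · rw [Function.update_of_ne hne.symm, Function.update_self]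
      omega
    · rw [Function.update_self]
      omega
    · intro w hwu hwv
      rw [Function.update_of_ne hwv, Function.update_of_ne hwu]
      exact h4 w hwu hwv

lemma realize (m : ℕ) : ∀ (x : ℕ → V) (q : V → ℕ), (∀ i ≤ m, G.Adj (x i) (x (i + 1))) →
    (∀ i ≤ m + 1, ∀ j ≤ m + 1, x i = x j → i = j) →
    0 ≤ (q (x 0) : ℤ) + arm (fun i => q (x (i + 1))) (m + 1) →
    ∃ q', Reach G q q' ∧ (q' (x 0) : ℤ) = q (x 0) + arm (fun i => q (x (i + 1))) (m + 1) ∧
      (∀ i, 1 ≤ i → i ≤ m → 1 ≤ q' (x i)) ∧ ∀ w, (∀ i ≤ m + 1, w ≠ x i) → q' w = q w := by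
  induction m with
  | zero =>
    intro x q hadj hinj _
    rw [arm_one]
    have h1 : G.Adj (x 1) (x 0) := (hadj 0 (le_refl _)).symm
    obtain ⟨q', h2, h3, h4, h5⟩ := move_many h1 (q (x 1) / 2) q (by omega)
    refine ⟨q', h2, ?_, by omega, ?_⟩
    · rw [h4]
      push_cast
      rfl
    · intro w hw
      exact h5 w (hw 1 (by omega)) (hw 0 (by omega))
  | succ m ih =>
    intro x q hadj hinj hval
    have h01 : G.Adj (x 0) (x 1) := hadj 0 (by omega)
    have hne : ∀ i ≤ m + 1, x 0 ≠ x (i + 1) := by
      intro i hi h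
      have := hinj 0 (by omega) (i + 1) (by omega) h
      omega
    have hne1 : ∀ i ≤ m, x (i + 1 + 1) ≠ x 1 := by
      intro i hi h
      have := hinj (i + 1 + 1) (by omega) 1 (by omega) h
      omega
    rw [arm_succ] at hval ⊢
    rcases lt_or_ge ((q (x (0 + 1)) : ℤ) - 1 + arm (fun i => q (x (i + 1 + 1))) (m + 1)) 0
      with hs | hs
    · rw [h_of_neg hs] at hval ⊢
      obtain ⟨a, ha⟩ : ∃ a : ℕ, (a : ℤ) =
          -((q (x (0 + 1)) : ℤ) - 1 + arm (fun i => q (x (i + 1 + 1))) (m + 1)) :=
        ⟨(-((q (x (0 + 1)) : ℤ) - 1 + arm (fun i => q (x (i + 1 + 1))) (m + 1))).toNat,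
          Int.toNat_of_nonneg (by omega)⟩
      obtain ⟨q₁, h1, h2, h3, h4⟩ := move_many h01 a q (by omega)
      have harm : (fun i => q₁ (x (i + 1 + 1))) = fun i => q₁ (x (i + 1 + 1)) := rfl
      have harm' : arm (fun i => q₁ (x (i + 1 + 1))) (m + 1) =
          arm (fun i => q (x (i + 1 + 1))) (m + 1) := by
        apply le_antisymm
        · apply arm_mono
          intro i hi
          rw [h4 _ (hne (i + 1) (by omega)).symm (hne1 i (by omega))]
        · apply arm_mono
          intro i hi
          rw [h4 _ (hne (i + 1) (by omega)).symm (hne1 i (by omega))]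
      obtain ⟨q₂, k1, k2, k3, k4⟩ := ih (fun i => x (i + 1)) q₁
        (fun i hi => hadj (i + 1) (by omega))
        (fun i hi j hj hij => by
          have := hinj (i + 1) (by omega) (j + 1) (by omega) hij
          omega)
        (by
          rw [harm']
          simp only [zero_add] at *
          rw [h3]
          push_cast
          omega)
      rw [harm'] at k2
      refine ⟨q₂, h1.trans k1, ?_, ?_, ?_⟩
      · rw [k4 (x 0) (fun i hi => hne i hi), h2]
        simp only [zero_add] at *
        have : 2 * a ≤ q (x 0) := by omega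
        push_cast [Nat.cast_sub this]
        omega
      · intro i hi1 hi2
        rcases Nat.eq_or_lt_of_le hi1 with h | h
        · subst h
          simp only [zero_add] at *
          rw [h3] at k2
          push_cast at k2
          omega
        · obtain ⟨j, rfl⟩ : ∃ j, i = j + 1 := ⟨i - 1, by omega⟩
          exact k3 j (by omega) (by omega)
      · intro w hw
        rw [k4 w (fun i hi => hw (i + 1) (by omega))]
        exact h4 w (hw 0 (by omega)) (hw 1 (by omega))
    · rw [h_of_nonneg hs] at hval ⊢
      obtain ⟨q₁, k1, k2, k3, k4⟩ := ih (fun i => x (i + 1)) q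
        (fun i hi => hadj (i + 1) (by omega))
        (fun i hi j hj hij => by
          have := hinj (i + 1) (by omega) (j + 1) (by omega) hij
          omega)
        (by
          simp only [zero_add] at *
          omega)
      obtain ⟨a, ha⟩ : ∃ a : ℕ, (a : ℤ) =
          ((q (x (0 + 1)) : ℤ) - 1 + arm (fun i => q (x (i + 1 + 1))) (m + 1)) / 2 :=
        ⟨(((q (x (0 + 1)) : ℤ) - 1 + arm (fun i => q (x (i + 1 + 1))) (m + 1)) / 2).toNat,
          Int.toNat_of_nonneg (by omega)⟩
      rw [← ha]
      simp only [zero_add] at *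
      obtain ⟨q₂, h1, h2, h3, h4⟩ := move_many h01.symm a q₁ (by omega)
      refine ⟨q₂, k1.trans h1, ?_, ?_, ?_⟩
      · rw [h3, k4 (x 0) (fun i hi => hne i hi)]
        push_cast
        rfl
      · intro i hi1 hi2
        rcases Nat.eq_or_lt_of_le hi1 with h | h
        · subst h
          omega
        · obtain ⟨j, rfl⟩ : ∃ j, i = j + 1 := ⟨i - 1, by omega⟩
          have h5 := k3 j (by omega) (by omega)
          have h6 : x (j + 1) ≠ x 1 := by
            intro h
            have := hinj (j + 1) (by omega) 1 (by omega) h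
            omega
          have h7 : x (j + 1) ≠ x 0 := (hne j (by omega)).symm
          rw [h4 _ h6 h7]
          exact h5
      · intro w hw
        rw [h4 w (hw 1 (by omega)) (hw 0 (by omega))]
        exact k4 w (fun i hi => hw (i + 1) (by omega))

end Q122.Hub
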