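import Pool.Agent.Q122.Hub.Map

set_option autoImplicit false

/-!
# Strong hub sets of cycles
-/

namespace Q122.Hub

open Finset SimpleGraph

section

variable {n : ℕ} (hn : 0 < n)

/-- a walk along the cycle -/
lemma walk_along (hn2 : 2 ≤ n) (a : ℤ) (d : ℕ) :
    ∃ w : (cycleGraph n).Walk (c n hn a) (c n hn (a + d)),
      ∀ z ∈ w.support, ∃ i : ℕ, i ≤ d ∧ z = c n hn (a + i) := by
  induction d with
  | zero =>
    have h1 : a + ((0 : ℕ) : ℤ) = a := by simp
    rw [h1]
    refine ⟨Walk.nil, ?_⟩
    intro z hz
    rw [Walk.support_nil, List.mem_singleton] at hz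
    exact ⟨0, le_refl _, by rw [hz, h1]⟩
  | succ d ih =>
    obtain ⟨w, hw⟩ := ih
    have h1 : (cycleGraph n).Adj (c n hn (a + d)) (c n hn (a + ((d + 1 : ℕ) : ℤ))) := by
      have := adj_succ hn hn2 (a + d)
      have h2 : a + (d : ℤ) + 1 = a + ((d + 1 : ℕ) : ℤ) := by
        push_cast
        ring
      rwa [h2] at this
    refine ⟨w.concat h1, ?_⟩
    intro z hz
    rw [Walk.support_concat, List.mem_append, List.mem_singleton] at hz
    rcases hz with hz | hz
    · obtain ⟨i, hi, rfl⟩ := hw z hz
      exact ⟨i, by omega, rfl⟩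
    · exact ⟨d + 1, le_refl _, hz⟩

/-- position relative to `a` -/
lemma exists_pos (a : ℤ) (u : Fin n) : ∃ i : ℕ, i < n ∧ u = c n hn (a + i) := by
  have h1 : 0 ≤ ((u.val : ℤ) - a) % n := Int.emod_nonneg _ (by omega)
  have h2 : ((u.val : ℤ) - a) % n < n := Int.emod_lt_of_pos _ (by omega)
  have h3 := Int.emod_add_mul_ediv ((u.val : ℤ) - a) n
  obtain ⟨d, hd⟩ : ∃ d : ℕ, (d : ℤ) = ((u.val : ℤ) - a) % n := ⟨_, Int.toNat_of_nonneg h1⟩
  rw [← hd] at h2 h3
  refine ⟨d, by omega, ?_⟩
  rw [← c_coe hn u, c_eq_iff]
  exact ⟨((u.val : ℤ) - a) / n, by linarith⟩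

theorem strongHub_compl (hn3 : 3 ≤ n) (a : ℤ) :
    IsStrongHub (cycleGraph n) {u | u ≠ c n hn a ∧ u ≠ c n hn (a + 1)} := by
  classical
  have hn2 : 2 ≤ n := by omega
  refine ⟨⟨c n hn (a + 2), ?_, ?_⟩, ?_⟩
  · intro h
    have := c_inj_of_lt hn h (by omega) (by omega)
    omega
  · intro h
    have := c_inj_of_lt hn h (by omega) (by omega)
    omega
  · -- paths
    have key : ∀ i j : ℕ, i < j → j < n →
        ∃ w : (cycleGraph n).Walk (c n hn (a + 1 + i)) (c n hn (a + 1 + j)),
          ∀ z ∈ w.support, z ≠ c n hn (a + 1 + i) → z ≠ c n hn (a + 1 + j) →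
            z ≠ c n hn a ∧ z ≠ c n hn (a + 1) := by
      intro i j hij hj
      have h1 : a + 1 + (i : ℤ) + ((j - i : ℕ) : ℤ) = a + 1 + j := by
        push_cast [Nat.cast_sub hij.le]
        ring
      have h0 := walk_along hn hn2 (a + 1 + i) (j - i)
      rw [h1] at h0
      obtain ⟨w, hw⟩ := h0
      refine ⟨w, ?_⟩
      intro z hz hz1 hz2
      obtain ⟨m, hm, rfl⟩ := hw z hz
      have hm0 : m ≠ 0 := by
        rintro rfl
        apply hz1
        simp
      have hm1 : m ≠ j - i := by
        rintro rfl
        apply hz2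
        rw [h1]
      constructor
      · intro h
        have := c_inj_of_lt hn h (by omega) (by omega)
        omega
      · intro h
        have := c_inj_of_lt hn h (by omega) (by omega)
        omega
    intro x y hxy
    have hpath : ∃ w : (cycleGraph n).Walk x y, ∀ z ∈ w.support, z ≠ x → z ≠ y →
        z ≠ c n hn a ∧ z ≠ c n hn (a + 1) := by
      obtain ⟨i, hi, rfl⟩ := exists_pos hn (a + 1) x
      obtain ⟨j, hj, rfl⟩ := exists_pos hn (a + 1) y
      rcases Nat.lt_trichotomy i j with h | h | h
      · exact key i j h hj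
      · exact absurd (by rw [h]) hxy
      · obtain ⟨w, hw⟩ := key j i h hi
        refine ⟨w.reverse, ?_⟩
        intro z hz hz1 hz2
        rw [Walk.support_reverse, List.mem_reverse] at hz
        exact hw z hz hz2 hz1
    obtain ⟨w, hw⟩ := hpath
    refine ⟨w.bypass, w.bypass_isPath, ?_⟩
    intro z hz hz1 hz2
    exact hw z (w.support_bypass_subset_support hz) hz1 hz2

/-- a walk which avoids `c a` visits all vertices between its ends -/
lemma walk_between (hn3 : 3 ≤ n) (a : ℤ) {x y : Fin n} (w : (cycleGraph n).Walk x y) :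
    ∀ i j : ℕ, 1 ≤ i → i < n → 1 ≤ j → j < n → x = c n hn (a + i) → y = c n hn (a + j) →
      (∀ z ∈ w.support, z ≠ c n hn a) →
      ∀ m : ℕ, i ≤ m → m ≤ j → c n hn (a + m) ∈ w.support := by
  induction w with
  | nil =>
    intro i j hi1 hi hj1 hj hx hy _ m him hmj
    have h1 := c_inj_of_lt hn (hx.symm.trans hy) (by omega) (by omega)
    have h2 : m = i := by omega
    rw [h2, ← hx]
    exact Walk.start_mem_support _
  | cons huv w ih =>
    rename_i u v y'
    intro i j hi1 hi hj1 hj hx hy hav m him hmj
    rw [Walk.support_cons, List.mem_cons]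
    rcases Nat.eq_or_lt_of_le him with h | h
    · left
      rw [← h, hx]
    · right
      -- the next vertex
      have hv : v ≠ c n hn a := hav v (by
        rw [Walk.support_cons]
        exact List.mem_cons_of_mem _ (Walk.start_mem_support _))
      obtain ⟨k, hk, hvk⟩ := exists_pos hn a v
      have hk0 : k ≠ 0 := by
        rintro rfl
        apply hv
        rw [hvk]
        simp
      have hstep : k = i + 1 ∨ k + 1 = i := by
        rw [hx, hvk, adj_c hn (by omega)] at huv
        rcases huv with hd | hd
        · right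
          have h1 : a + (i : ℤ) - (a + k) - 1 = i - k - 1 := by ring
          rw [h1] at hd
          have := Int.eq_zero_of_abs_lt_dvd hd (by
            rw [abs_lt]
            constructor <;> omega)
          omega
        · left
          have h1 : a + (k : ℤ) - (a + i) - 1 = k - i - 1 := by ring
          rw [h1] at hd
          have := Int.eq_zero_of_abs_lt_dvd hd (by
            rw [abs_lt]
            constructor <;> omega)
          omega
      refine ih k j (by omega) hk hj1 hj hvk hy ?_ m (by omega) hmj
      intro z hz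
      apply hav
      rw [Walk.support_cons]
      exact List.mem_cons_of_mem _ hz

lemma hub_around (hn4 : 4 ≤ n) {U : Set (Fin n)} (hU : IsStrongHub (cycleGraph n) U) (a : ℤ)
    (ha : c n hn a ∉ U) (m : ℕ) (hm : 2 ≤ m) (hm' : m + 2 ≤ n) : c n hn (a + m) ∈ U := by
  have h1 : c n hn (a + (1 : ℕ)) ≠ c n hn (a + ((n - 1 : ℕ) : ℤ)) := by
    intro h
    have := c_inj_of_lt hn h (by omega) (by omega)
    omega
  obtain ⟨w, -, hw⟩ := hU.2 _ _ h1
  have h2 : ∀ z ∈ w.support, z ≠ c n hn a := by
    intro z hz h
    apply ha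
    rw [← h]
    refine hw z hz ?_ ?_
    · rw [h]
      intro h'
      have := c_inj_of_lt hn h' (by omega) (by omega)
      omega
    · rw [h]
      intro h'
      have := c_inj_of_lt hn h' (by omega) (by omega)
      omega
  have h3 := walk_between hn (by omega) a w 1 (n - 1) (by omega) (by omega) (by omega) (by omega)
    rfl rfl h2 m (by omega) (by omega)
  refine hw _ h3 ?_ ?_
  · intro h'
    have := c_inj_of_lt hn h' (by omega) (by omega)
    omega
  · intro h'
    have := c_inj_of_lt hn h' (by omega) (by omega)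
    omega

/-- every strong hub set contains all vertices but two consecutive ones -/
theorem hub_contains (hn3 : 3 ≤ n) {U : Set (Fin n)} (hU : IsStrongHub (cycleGraph n) U) :
    ∃ a : ℤ, ∀ u, u ≠ c n hn a → u ≠ c n hn (a + 1) → u ∈ U := by
  classical
  rcases Nat.eq_or_lt_of_le hn3 with h3 | hn4
  · obtain ⟨b, hb⟩ := hU.1
    refine ⟨b.val + 1, ?_⟩
    intro u hu1 hu2
    obtain ⟨i, hi, rfl⟩ := exists_pos hn b.val u
    have h4 : i = 0 ∨ i = 1 ∨ i = 2 := by omega
    rcases h4 with rfl | rfl | rfl
    · have h5 : c n hn ((b.val : ℤ) + ((0 : ℕ) : ℤ)) = b := by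
        have := c_coe hn b
        simpa using this
      rw [h5]
      exact hb
    · exfalso
      apply hu1
      simp
    · exfalso
      apply hu2
      congr 1
  · by_cases hall : ∀ u, u ∈ U
    · exact ⟨0, fun u _ _ => hall u⟩
    · push Not at hall
      obtain ⟨u₀, hu₀⟩ := hall
      obtain ⟨a, rfl⟩ : ∃ a, u₀ = c n hn a := ⟨u₀.val, (c_coe hn u₀).symm⟩
      have h1 := hub_around hn hn4 hU a hu₀
      by_cases h2 : c n hn (a + 1) ∈ U
      · refine ⟨a - 1, ?_⟩
        intro u hu1 hu2
        obtain ⟨i, hi, rfl⟩ := exists_pos hn a u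
        rcases Nat.lt_or_ge i 2 with h | h
        · interval_cases i
          · exfalso
            apply hu2
            congr 1
            simp
          · exact_mod_cast h2
        · rcases Nat.lt_or_ge (i + 1) n with h' | h'
          · exact h1 i h (by omega)
          · exfalso
            apply hu1
            rw [c_eq_iff]
            refine ⟨1, ?_⟩
            have : (i : ℤ) = n - 1 := by omega
            rw [this]
            ring
      · refine ⟨a, ?_⟩
        intro u hu1 hu2
        obtain ⟨i, hi, rfl⟩ := exists_pos hn a u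
        rcases Nat.lt_or_ge i 2 with h | h
        · interval_cases i
          · exfalso
            apply hu1
            simp
          · exfalso
            apply hu2
            simp
        · rcases Nat.lt_or_ge (i + 1) n with h' | h'
          · exact h1 i h (by omega)
          · have h3 := hub_around hn hn4 hU (a + 1) h2 (n - 2) (by omega) (by omega)
            have h4 : c n hn (a + i) = c n hn (a + 1 + ((n - 2 : ℕ) : ℤ)) := by
              congr 1
              omega
            rw [h4]
            exact h3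

end

end Q122.Hub
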